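import Mathlib
import Pool.Agent.Lib.P9700a.Defs
import Pool.Agent.Lib.P9700b.MainV

/-!
# Definitions for the virtually residually (finite soluble) case of MP_9700b3_al

* `VSd c G`: `G` has a subgroup of finite index of derived length at most `c`.
* `SN G0 N`: `N` is a normal subgroup of `G`, of finite index, inside `G0`, with `G0 / N` soluble.
* `KpS p G0 N M`: `M` is a normal subgroup of `G` with `N ≤ M ≤ G0` and `|M : N|` prime to `p`.
* `Kp p G0 N`: the largest such subgroup (`O_{p'}(G0 / N)`).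
* `QpS p G0 N M`: `M` is a normal subgroup of `G` with `Kp p G0 N ≤ M ≤ G0`, `|M : Kp|` a power of `p`.
* `Qp p G0 N`: the largest such subgroup (`O_p (G0 / Kp)`).
* `EA p M1 M`: `M / M1` is an elementary abelian `p`-group (`M1 ≤ M`).
* `EBS e G0`: all elementary abelian sections of finite quotients of `G` by normal subgroups below `G0` have rank at most `e`.
-/

set_option autoImplicit false

namespace P9700h

open P9700a

/-- `G` has a subgroup of finite index of derived length at most `c`. -/
def VSd (c : ℕ) (G : Type*) [Group G] : Prop :=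
  ∃ Y : Subgroup G, Y.FiniteIndex ∧ derivedSeries Y c = ⊥

section

variable {G : Type*} [Group G]

/-- `N` is a normal subgroup of finite index of `G` inside `G0`, with `G0 / N` soluble. -/
structure SN (G0 N : Subgroup G) : Prop where
  normal : N.Normal
  le : N ≤ G0
  fin : N.FiniteIndex
  sol : ∃ k : ℕ, (derivedSeries G0 k).map G0.subtype ≤ N

/-- `M` is a normal subgroup of `G` with `N ≤ M ≤ G0` and `|M : N|` prime to `p`. -/
structure KpS (p : ℕ) (G0 N M : Subgroup G) : Prop where
  normal : M.Normal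
  le : N ≤ M
  le' : M ≤ G0
  cop : Nat.Coprime p (N.relIndex M)

/-- the largest normal subgroup `M` of `G` with `N ≤ M ≤ G0` and `|M : N|` prime to `p`. -/
def Kp (p : ℕ) (G0 N : Subgroup G) : Subgroup G := sSup {M | KpS p G0 N M}

/-- `M` is a normal subgroup of `G` with `Kp p G0 N ≤ M ≤ G0` and `|M : Kp p G0 N|` a power of `p`. -/
structure QpS (p : ℕ) (G0 N M : Subgroup G) : Prop where
  normal : M.Normal
  le : Kp p G0 N ≤ M
  le' : M ≤ G0
  pow : ∃ k : ℕ, (Kp p G0 N).relIndex M = p ^ k

/-- the largest normal subgroup `M` of `G` with `Kp p G0 N ≤ M ≤ G0` and `|M : Kp p G0 N|` a power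
of `p`. -/
def Qp (p : ℕ) (G0 N : Subgroup G) : Subgroup G := sSup {M | QpS p G0 N M}

/-- `M / M1` is an elementary abelian `p`-group. -/
structure EA (p : ℕ) (M1 M : Subgroup G) : Prop where
  le : M1 ≤ M
  comm : ∀ x ∈ M, ∀ y ∈ M, x * y * x⁻¹ * y⁻¹ ∈ M1
  pow : ∀ x ∈ M, x ^ p ∈ M1

/-- elementary abelian `p`-sections `M / M1` of `G` with `M1` of finite index and `M ≤ G0`, both
normal in `G`, have order at most `p ^ e`, for every prime `p`. -/
def EBS (e : ℕ) (G0 : Subgroup G) : Prop :=
  ∀ p : ℕ, p.Prime → ∀ M M1 : Subgroup G, M.Normal → M1.Normal → M1.FiniteIndex → M ≤ G0 →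
    EA p M1 M → M1.relIndex M ≤ p ^ e

/-- the subgroup generated by the `p`-th powers and the commutators of elements of `Q`, and `K`. -/
def FrK (p : ℕ) (K Q : Subgroup G) : Subgroup G :=
  Subgroup.closure ({y | ∃ x ∈ Q, x ^ p = y} ∪ {y | ∃ a ∈ Q, ∃ b ∈ Q, a * b * a⁻¹ * b⁻¹ = y}) ⊔ K

/-- intersection of all `Kp p G0 N`. -/
def KI (p : ℕ) (G0 : Subgroup G) : Subgroup G := sInf {M | ∃ N, SN G0 N ∧ M = Kp p G0 N}

end

end P9700h
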