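import Mathlib
import Pool.Agent.Lib.P9700h.Defs

/-!
# The subgroups `Kp` and `Qp`

* `Kp_spec`: `N` has finite index in `G`, so there are only finitely many subgroups between `N` and `G`; choose a member `M` of `{M | KpS p G0 N M}` with `N.relIndex M` maximal (bounded by `N.index`; `N` itself is a member). For another member `M'` the subgroup `M ⊔ M'` is a member:
  `N.relIndex (M ⊔ M') = N.relIndex M * M.relIndex (M ⊔ M')` and `M.relIndex (M ⊔ M') = M.relIndex M'` (`M` normal: `Subgroup.relIndex_sup_right` or similar) `= (M ⊓ M').relIndex M'` divides `N.relIndex M'` (`Subgroup.relIndex_dvd_of_le_left`). By maximality `M ⊔ M' = M` (equal finite relative indices), so `M' ≤ M` and `Kp = M`.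
* `Qp_spec`: the same with powers of `p` (`Kp` is a member, `k = 0`; a divisor of a power of `p` is a power of `p`).
* `Kp_mono`: `M = Kp p G0 N' ⊔ N` is normal, `N ≤ M ≤ G0`, `N.relIndex M = N.relIndex (Kp p G0 N')` divides `N'.relIndex (Kp p G0 N')`: prime to `p`. So `Kp p G0 N' ≤ M ≤ Kp p G0 N`.
* `Qp_mono`: `M = Qp p G0 N' ⊔ Kp p G0 N`, `(Kp p G0 N).relIndex M = (Kp p G0 N).relIndex (Qp p G0 N')` divides `(Kp p G0 N').relIndex (Qp p G0 N')` by `Kp_mono`.
-/

set_option autoImplicit false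

namespace P9700h

variable {G : Type*} [Group G] {p : ℕ} {G0 N N' M : Subgroup G}

theorem le_Kp (h : KpS p G0 N M) : M ≤ Kp p G0 N := le_sSup h

theorem le_Qp (h : QpS p G0 N M) : M ≤ Qp p G0 N := le_sSup h

namespace KQaAux

theorem sSup_spec {P : Subgroup G → Prop} {K0 : Subgroup G} (hK0 : K0.FiniteIndex) (h0 : P K0)
    (hle : ∀ M, P M → K0 ≤ M) (hsup : ∀ M M', P M → P M' → P (M ⊔ M')) :
    P (sSup {M | P M}) := by
  classical
  have hex : ∃ n : ℕ, ∃ M, P M ∧ M.index = n := ⟨_, K0, h0, rfl⟩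
  obtain ⟨M, hM, hMi⟩ := Nat.find_spec hex
  have hfin : ∀ L, P L → L.index ≠ 0 := fun L hL =>
    (Subgroup.finiteIndex_of_le (hle L hL)).index_ne_zero
  have hmax : ∀ M', P M' → M' ≤ M := by
    intro M' hM'
    have hS := hsup M M' hM hM'
    have hmin : M.index ≤ (M ⊔ M').index := by
      rw [hMi]
      exact Nat.find_min' hex ⟨_, hS, rfl⟩
    have hmul := Subgroup.relIndex_mul_index (le_sup_left : M ≤ M ⊔ M')
    have hpos : 0 < (M ⊔ M').index := Nat.pos_of_ne_zero (hfin _ hS)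
    have hM0 : 0 < M.index := Nat.pos_of_ne_zero (hfin _ hM)
    have h1 : M.relIndex (M ⊔ M') = 1 := by
      have h2 : M.relIndex (M ⊔ M') ≠ 0 := by
        intro h
        rw [h, Nat.zero_mul] at hmul
        omega
      have h3 : ¬ 2 ≤ M.relIndex (M ⊔ M') := by
        intro h
        have := Nat.mul_le_mul_right (M ⊔ M').index h
        omega
      omega
    exact le_sup_right.trans (Subgroup.relIndex_eq_one.1 h1)
  have : sSup {M | P M} = M := le_antisymm (sSup_le hmax) (le_sSup hM)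
  rw [this]
  exact hM

theorem relIndex_sup_dvd {K M M' : Subgroup G} (hM : M.Normal) (hKM : K ≤ M) :
    ∃ d, d ∣ K.relIndex M' ∧ K.relIndex (M ⊔ M') = K.relIndex M * d := by
  refine ⟨M.relIndex M', Subgroup.relIndex_dvd_of_le_left M' hKM, ?_⟩
  rw [← Subgroup.relIndex_mul_relIndex K M (M ⊔ M') hKM le_sup_left, sup_comm,
    Subgroup.relIndex_sup_right]

end KQaAux

open KQaAux

theorem Kp_spec (hG0 : G0.Normal) (hN : SN G0 N) : KpS p G0 N (Kp p G0 N) := by
  have _ := hG0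
  refine sSup_spec (P := KpS p G0 N) hN.fin ⟨hN.normal, le_rfl, hN.le, by simp⟩
    (fun M hM => hM.le) ?_
  intro M M' hM hM'
  have i1 := hM.normal
  have i2 := hM'.normal
  refine ⟨Subgroup.sup_normal M M', hM.le.trans le_sup_left, sup_le hM.le' hM'.le', ?_⟩
  obtain ⟨d, h1, h2⟩ := relIndex_sup_dvd (M' := M') hM.normal hM.le
  rw [h2]
  exact hM.cop.mul_right (hM'.cop.coprime_dvd_right h1)

theorem Kp_fin (hG0 : G0.Normal) (hN : SN G0 N) : (Kp p G0 N).FiniteIndex := by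
  have i := hN.fin
  exact Subgroup.finiteIndex_of_le (Kp_spec hG0 hN).le

theorem Qp_spec (hp : p.Prime) (hG0 : G0.Normal) (hN : SN G0 N) : QpS p G0 N (Qp p G0 N) := by
  have hK := Kp_spec (p := p) hG0 hN
  refine sSup_spec (P := QpS p G0 N) (Kp_fin hG0 hN) ⟨hK.normal, le_rfl, hK.le', 0, by simp⟩
    (fun M hM => hM.le) ?_
  intro M M' hM hM'
  have i1 := hM.normal
  have i2 := hM'.normal
  refine ⟨Subgroup.sup_normal M M', hM.le.trans le_sup_left, sup_le hM.le' hM'.le', ?_⟩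
  obtain ⟨d, h1, h2⟩ := relIndex_sup_dvd (M' := M') hM.normal hM.le
  obtain ⟨k, hk⟩ := hM.pow
  obtain ⟨k', hk'⟩ := hM'.pow
  rw [hk'] at h1
  obtain ⟨j, -, hj⟩ := (Nat.dvd_prime_pow hp).1 h1
  exact ⟨k + j, by rw [h2, hk, hj, pow_add]⟩

theorem Qp_fin (hp : p.Prime) (hG0 : G0.Normal) (hN : SN G0 N) : (Qp p G0 N).FiniteIndex := by
  have i := Kp_fin (p := p) hG0 hN
  exact Subgroup.finiteIndex_of_le (Qp_spec hp hG0 hN).le

theorem Kp_mono (hG0 : G0.Normal) (hN : SN G0 N) (hN' : SN G0 N') (h : N' ≤ N) :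
    Kp p G0 N' ≤ Kp p G0 N := by
  have hK := Kp_spec (p := p) hG0 hN'
  have i1 := hK.normal
  have i2 := hN.normal
  refine le_trans (le_sup_left : Kp p G0 N' ≤ Kp p G0 N' ⊔ N) (le_Kp ⟨Subgroup.sup_normal _ _,
    le_sup_right, sup_le hK.le' hN.le, ?_⟩)
  rw [Subgroup.relIndex_sup_right]
  exact hK.cop.coprime_dvd_right (Subgroup.relIndex_dvd_of_le_left _ h)

theorem Qp_mono (hp : p.Prime) (hG0 : G0.Normal) (hN : SN G0 N) (hN' : SN G0 N') (h : N' ≤ N) :
    Qp p G0 N' ≤ Qp p G0 N := by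
  have hK := Kp_spec (p := p) hG0 hN
  have hQ := Qp_spec hp hG0 hN'
  have i1 := hQ.normal
  have i2 := hK.normal
  refine le_trans (le_sup_left : Qp p G0 N' ≤ Qp p G0 N' ⊔ Kp p G0 N)
    (le_Qp ⟨Subgroup.sup_normal _ _, le_sup_right, sup_le hQ.le' hK.le', ?_⟩)
  rw [Subgroup.relIndex_sup_right]
  have h1 : (Kp p G0 N).relIndex (Qp p G0 N') ∣ (Kp p G0 N').relIndex (Qp p G0 N') :=
    Subgroup.relIndex_dvd_of_le_left _ (Kp_mono hG0 hN hN' h)
  obtain ⟨k, hk⟩ := hQ.pow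
  rw [hk] at h1
  obtain ⟨j, -, hj⟩ := (Nat.dvd_prime_pow hp).1 h1
  exact ⟨j, hj⟩

end P9700h
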