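import Mathlib
import Pool.Agent.Lib.P9700h.Defs
import Pool.Agent.Lib.P9700h.KQa

/-!
# The lemma of Hall and Higman for soluble groups: `C(O_p) ≤ O_p` if `O_{p'} = 1`

Write `K = Kp p G0 N`, `Q = Qp p G0 N` (`Kp_spec`, `Qp_spec`: normal, `K ≤ Q ≤ G0`, finite index, `K.relIndex Q` a power of `p`), `C = {g ∈ G0 : ∀ x ∈ Q, x g x⁻¹ g⁻¹ ∈ K}`: a normal subgroup of `G` (`Q`, `K`, `G0` normal) containing `K`. Suppose `C` is not contained in `Q`; `Z = C ⊓ Q`.

Choose a normal subgroup `D` of `G` with `Z < D ≤ C` and `Z.relIndex D` minimal (there is one, `C` itself, and all relative indices are finite because `N ≤ K ≤ Z` has finite index). `D / Z` is soluble (`N ≤ Z`, `(derivedSeries G0 k).map ≤ N`), so `⁅D, D⁆ ⊔ Z` is a normal subgroup strictly smaller than `D` (if `⁅D, D⁆ ⊔ Z = D` then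
by induction every derived subgroup `D^(k)` satisfies `D^(k) ⊔ Z = D`, but `D^(k) ≤ N ≤ Z`), so by minimality `⁅D, D⁆ ≤ Z`. Let `l` be a prime dividing `Z.relIndex D`; `E = {x ∈ D : x ^ l ∈ Z}` is a normal subgroup of `G` (as `D / Z` is commutative), bigger than `Z` (Cauchy), so `E = D`: every `x ∈ D` has `x ^ l ∈ Z`.

* `l = p`: every element of `D` has a `p`-power power in `K` (`x ^ p ∈ Z ≤ Q`, and elements of `Q` have a `p`-power power in `K`), so `K.relIndex D` is a power of `p` (`IsPGroup.iff_card` for the finite group `D ⧸ K.subgroupOf D`), so `D ≤ Q` (`le_Qp`), `D ≤ Z`: contradiction.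
* `l ≠ p`: let `q = K.relIndex Z`, a power of `p` (it divides `K.relIndex Q`); so `z ^ q ∈ K` for `z ∈ Z`. `L = {x ∈ D : x ^ l ∈ K}`. Elements of `Z` commute with elements of `D` modulo `K` (`D ≤ C`, `Z ≤ Q`), and commutators of elements of `D` lie in `Z`: modulo `K` the group `D` has class at most `2`.
  `L` is a subgroup: for `x, y ∈ L` the commutator `c = ⁅y, x⁆` lies in `Z`, it is central modulo `K` and `c ^ l ≡ ⁅y, x ^ l⁆ ≡ 1`, `c ^ q ≡ 1` modulo `K`; `l` and `q` are coprime so `c ∈ K`, and so `(x y) ^ l ≡ x ^ l y ^ l ≡ 1`. `L` is normal in `G`, `K ≤ L ≤ G0`, every element of `L / K` has order dividing `l`, so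
  `K.relIndex L` is prime to `p` (Cauchy), hence so is `N.relIndex L = N.relIndex K * K.relIndex L`, so `L ≤ K` (`le_Kp`). But for `x ∈ D` not in `Z`: `x ^ q ∈ L`: `(x ^ q) ^ l = (x ^ l) ^ q ∈ K`. So `x ^ q ∈ K ≤ Z` and `x ^ l ∈ Z`, `l`, `q` coprime: `x ∈ Z`, contradiction.
-/

set_option autoImplicit false

namespace P9700h

namespace HHAux

open scoped commutatorElement

variable {H : Type*} [Group H]

theorem exists_min [Finite H] {Z C : Subgroup H} (hC : C.Normal) (hZC : Z < C) :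
    ∃ D : Subgroup H, D.Normal ∧ Z < D ∧ D ≤ C ∧
      ∀ E : Subgroup H, E.Normal → Z < E → E ≤ D → E = D := by
  obtain ⟨D, ⟨h1, h2, h3⟩, hmin⟩ := (wellFounded_lt (α := Subgroup H)).has_min
    {D | D.Normal ∧ Z < D ∧ D ≤ C} ⟨C, hC, hZC, le_rfl⟩
  refine ⟨D, h1, h2, h3, fun E hE hZE hED => ?_⟩
  by_contra hne
  exact hmin E ⟨hE, hZE, hED.trans h3⟩ (lt_of_le_of_ne hED hne)

theorem comm_le {Z D : Subgroup H} (hZ : Z.Normal) (hD : D.Normal) (hZD : Z < D)
    (hsol : Group.IsSolvable D)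
    (hmin : ∀ E : Subgroup H, E.Normal → Z < E → E ≤ D → E = D) : ⁅D, D⁆ ≤ Z := by
  have hE : (⁅D, D⁆ ⊔ Z).Normal := Subgroup.sup_normal _ _
  have hle : ⁅D, D⁆ ⊔ Z ≤ D := sup_le (Subgroup.commutator_le_left D D) hZD.le
  by_cases h : ⁅D, D⁆ ⊔ Z = D
  · exfalso
    have hmZ : Z.map (QuotientGroup.mk' Z) = ⊥ := by
      rw [Subgroup.map_eq_bot_iff, QuotientGroup.ker_mk']
    have hB : ⁅D.map (QuotientGroup.mk' Z), D.map (QuotientGroup.mk' Z)⁆ =
        D.map (QuotientGroup.mk' Z) := by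
      rw [← Subgroup.map_commutator]
      conv_rhs => rw [← h]
      rw [Subgroup.map_sup, hmZ, sup_bot_eq]
    obtain ⟨x, hxD, hxZ⟩ := SetLike.exists_of_lt hZD
    have hnt : Nontrivial (D.map (QuotientGroup.mk' Z)) := by
      refine ⟨⟨⟨QuotientGroup.mk' Z x, Subgroup.mem_map_of_mem _ hxD⟩, 1, fun h1 => hxZ ?_⟩⟩
      have h2 := congrArg Subtype.val h1
      exact (QuotientGroup.eq_one_iff x).1 h2
    have hs : Group.IsSolvable (D.map (QuotientGroup.mk' Z)) := by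
      have := hsol
      exact Group.isSolvable_of_surjective ((QuotientGroup.mk' Z).subgroupMap_surjective D)
    have h3 := Group.IsSolvable.commutator_lt_top_of_nontrivial (D.map (QuotientGroup.mk' Z))
    refine h3.ne ?_
    have h4 := Subgroup.map_subtype_commutator (D.map (QuotientGroup.mk' Z))
    rw [hB] at h4
    refine Subgroup.map_injective (Subgroup.subtype_injective (D.map (QuotientGroup.mk' Z))) ?_
    rw [h4, ← MonoidHom.range_eq_map, Subgroup.range_subtype]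
  · by_contra hcon
    refine h (hmin _ hE (lt_of_le_of_ne le_sup_right ?_) hle)
    intro h1
    exact hcon (le_sup_left.trans h1.ge)

theorem mem_iff_pow {Z : Subgroup H} [Z.Normal] (x : H) (n : ℕ) :
    x ^ n ∈ Z ↔ (QuotientGroup.mk' Z x) ^ n = 1 := by
  rw [← map_pow]
  exact (QuotientGroup.eq_one_iff (x ^ n)).symm

theorem commute_mk {Z : Subgroup H} [Z.Normal] {x y : H} (h : ⁅x, y⁆ ∈ Z) :
    Commute (QuotientGroup.mk' Z x) (QuotientGroup.mk' Z y) := by
  have h1 : QuotientGroup.mk' Z ⁅x, y⁆ = 1 := (QuotientGroup.eq_one_iff _).2 h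
  rw [map_commutatorElement] at h1
  exact commutatorElement_eq_one_iff_commute.1 h1

/-- the elements with `l`-th power in `Z` -/
def EE (Z D : Subgroup H) [Z.Normal] (l : ℕ) (hc : ⁅D, D⁆ ≤ Z) : Subgroup H where
  carrier := {x | x ∈ D ∧ x ^ l ∈ Z}
  one_mem' := ⟨one_mem _, by rw [one_pow]; exact one_mem _⟩
  mul_mem' := by
    rintro x y ⟨hx, hx'⟩ ⟨hy, hy'⟩
    refine ⟨mul_mem hx hy, ?_⟩
    have h := commute_mk (hc (Subgroup.commutator_mem_commutator hx hy))
    rw [mem_iff_pow] at hx' hy' ⊢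
    rw [map_mul, h.mul_pow, hx', hy', one_mul]
  inv_mem' := by
    rintro x ⟨hx, hx'⟩
    exact ⟨inv_mem hx, by rw [inv_pow]; exact inv_mem hx'⟩

theorem ee_normal {Z D : Subgroup H} [Z.Normal] (hD : D.Normal) (l : ℕ) (hc : ⁅D, D⁆ ≤ Z) :
    (EE Z D l hc).Normal := by
  refine ⟨fun x hx g => ⟨hD.conj_mem x hx.1 g, ?_⟩⟩
  rw [conj_pow]
  exact (inferInstance : Z.Normal).conj_mem _ hx.2 g

theorem exists_pow [Finite H] {Z D : Subgroup H} (hZ : Z.Normal) (hD : D.Normal) (hZD : Z < D)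
    (hc : ⁅D, D⁆ ≤ Z) (hmin : ∀ E : Subgroup H, E.Normal → Z < E → E ≤ D → E = D) :
    ∃ l : ℕ, l.Prime ∧ ∀ x ∈ D, x ^ l ∈ Z := by
  obtain ⟨y, hyD, hyZ⟩ := SetLike.exists_of_lt hZD
  have hnt : Nontrivial (D.map (QuotientGroup.mk' Z)) := by
    refine ⟨⟨⟨QuotientGroup.mk' Z y, Subgroup.mem_map_of_mem _ hyD⟩, 1, fun h1 => hyZ ?_⟩⟩
    have h2 := congrArg Subtype.val h1
    exact (QuotientGroup.eq_one_iff y).1 h2
  have hcard : Nat.card (D.map (QuotientGroup.mk' Z)) ≠ 1 := by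
    have := Finite.one_lt_card (α := D.map (QuotientGroup.mk' Z))
    omega
  have hl := Nat.minFac_prime hcard
  have hf : Fact (Nat.minFac (Nat.card (D.map (QuotientGroup.mk' Z)))).Prime := ⟨hl⟩
  obtain ⟨⟨z, hz⟩, hzo⟩ := exists_prime_orderOf_dvd_card'
    (G := D.map (QuotientGroup.mk' Z)) _ (Nat.minFac_dvd _)
  obtain ⟨x, hx, rfl⟩ := hz
  refine ⟨_, hl, ?_⟩
  have hE : EE Z D (Nat.minFac (Nat.card (D.map (QuotientGroup.mk' Z)))) hc = D := by
    refine hmin _ (ee_normal hD _ hc) ?_ (fun a ha => ha.1)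
    refine lt_of_le_of_ne (fun a ha => ⟨hZD.le ha, pow_mem ha _⟩) ?_
    intro h
    have h1 := pow_orderOf_eq_one
      (⟨QuotientGroup.mk' Z x, Subgroup.mem_map_of_mem _ hx⟩ : D.map (QuotientGroup.mk' Z))
    rw [hzo] at h1
    have h2 : (QuotientGroup.mk' Z x) ^
        (Nat.minFac (Nat.card (D.map (QuotientGroup.mk' Z)))) = 1 := congrArg Subtype.val h1
    have h3 : x ∈ Z := by
      rw [h]
      exact ⟨hx, (mem_iff_pow x _).2 h2⟩
    have h4 : (⟨QuotientGroup.mk' Z x, Subgroup.mem_map_of_mem _ hx⟩ :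
        D.map (QuotientGroup.mk' Z)) = 1 := Subtype.ext ((QuotientGroup.eq_one_iff x).2 h3)
    rw [h4, orderOf_one] at hzo
    exact hl.one_lt.ne hzo
  intro x hx
  rw [← hE] at hx
  exact hx.2

/-- if `c = y x y⁻¹ x⁻¹` commutes with `x`, then `c ^ n x ^ n = y x ^ n y⁻¹` -/
theorem comm_pow {x y : H} (h : Commute (y * x * y⁻¹ * x⁻¹) x) (n : ℕ) :
    (y * x * y⁻¹ * x⁻¹) ^ n * x ^ n = y * x ^ n * y⁻¹ := by
  rw [← h.mul_pow, ← conj_pow]
  group

theorem hh_fin [Finite H] {p : ℕ} (hp : p.Prime) {S Q : Subgroup H} (hS : S.Normal)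
    (hQ : Q.Normal) (hsol : Group.IsSolvable S)
    (h2 : ∀ L : Subgroup H, L.Normal → L ≤ S → Nat.Coprime p (Nat.card L) → L = ⊥)
    (h3 : ∀ P : Subgroup H, P.Normal → P ≤ S → IsPGroup p P → P ≤ Q) (hQp : IsPGroup p Q)
    {g : H} (hg : g ∈ S) (hgc : ∀ x ∈ Q, x * g = g * x) : g ∈ Q := by
  by_contra hgQ
  have hfp : Fact p.Prime := ⟨hp⟩
  -- the centralizer
  let C : Subgroup H := S ⊓ Subgroup.centralizer (Q : Set H)
  have hC : C.Normal := by
    refine ⟨fun a ha b => ⟨hS.conj_mem a ha.1 b, ?_⟩⟩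
    refine Subgroup.mem_centralizer_iff.2 fun x hx => ?_
    have h4 := Subgroup.mem_centralizer_iff.1 ha.2 (b⁻¹ * x * b) (by
      have := hQ.conj_mem x hx b⁻¹
      rw [inv_inv] at this
      exact this)
    calc x * (b * a * b⁻¹) = b * ((b⁻¹ * x * b) * a) * b⁻¹ := by group
      _ = b * (a * (b⁻¹ * x * b)) * b⁻¹ := by rw [h4]
      _ = b * a * b⁻¹ * x := by group
  have hgC : g ∈ C := ⟨hg, Subgroup.mem_centralizer_iff.2 fun x hx => hgc x hx⟩
  have hZn : (C ⊓ Q).Normal := by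
    refine ⟨fun a ha b => ⟨hC.conj_mem a ha.1 b, hQ.conj_mem a ha.2 b⟩⟩
  have hZC : C ⊓ Q < C := by
    refine lt_of_le_of_ne inf_le_left fun h => hgQ ?_
    rw [← h] at hgC
    exact hgC.2
  obtain ⟨D, hD, hZD, hDC, hmin⟩ := exists_min hC hZC
  have hDS : D ≤ S := hDC.trans inf_le_left
  have hDs : Group.IsSolvable D := by
    have := hsol
    exact Group.isSolvable_of_isSolvable_injective (Subgroup.inclusion_injective hDS)
  have hc := comm_le hZn hD hZD hDs hmin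
  obtain ⟨l, hl, hpow⟩ := exists_pow hZn hD hZD hc hmin
  by_cases hlp : l = p
  · -- D is a p-group
    have hDp : IsPGroup p D := by
      rintro ⟨x, hx⟩
      have h4 := (hpow x hx).2
      obtain ⟨k, hk⟩ := hQp ⟨x ^ l, h4⟩
      refine ⟨k + 1, Subtype.ext ?_⟩
      have h5 : (x ^ l) ^ p ^ k = 1 := congrArg Subtype.val hk
      show x ^ p ^ (k + 1) = 1
      rw [pow_succ', pow_mul, ← hlp]
      rw [← hlp] at h5
      exact h5
    have h4 := h3 D hD hDS hDp
    exact absurd (le_inf hDC h4) (not_le_of_gt hZD)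
  · -- the other case
    obtain ⟨j, hj⟩ := (IsPGroup.iff_card.1 hQp)
    have hcop : Nat.Coprime l (p ^ j) :=
      Nat.Coprime.pow_right _ ((Nat.coprime_primes hl hp).2 hlp)
    have hQpow : ∀ x ∈ Q, x ^ p ^ j = 1 := by
      intro x hx
      have h4 : (⟨x, hx⟩ : Q) ^ Nat.card Q = 1 := pow_card_eq_one'
      rw [hj] at h4
      exact congrArg Subtype.val h4
    have hcent : ∀ z ∈ C ⊓ Q, ∀ x ∈ D, Commute z x := by
      intro z hz x hx
      exact Subgroup.mem_centralizer_iff.1 (hDC hx).2 z hz.2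
    have hcomm : ∀ x ∈ D, ∀ y ∈ D, x ^ l = 1 → Commute x y := by
      intro x hx y hy hxl
      have h4 : y * x * y⁻¹ * x⁻¹ ∈ C ⊓ Q := hc (Subgroup.commutator_mem_commutator hy hx)
      have h5 := comm_pow (hcent _ h4 x hx) l
      rw [hxl, mul_one, mul_one, mul_inv_cancel] at h5
      have h6 := hQpow _ h4.2
      have h7 : y * x * y⁻¹ * x⁻¹ = 1 := by
        have h8 := orderOf_dvd_of_pow_eq_one h5
        have h9 := orderOf_dvd_of_pow_eq_one h6
        exact orderOf_eq_one_iff.1 (Nat.eq_one_of_dvd_coprimes hcop h8 h9)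
      have h8 : y * x * y⁻¹ = x := mul_inv_eq_one.1 h7
      have h9 : y * x = x * y := mul_inv_eq_iff_eq_mul.1 h8
      exact h9.symm
    let L : Subgroup H :=
      { carrier := {x | x ∈ D ∧ x ^ l = 1}
        one_mem' := ⟨one_mem _, one_pow _⟩
        mul_mem' := by
          rintro x y ⟨hx, hx'⟩ ⟨hy, hy'⟩
          exact ⟨mul_mem hx hy, by rw [(hcomm x hx y hy hx').mul_pow, hx', hy', one_mul]⟩
        inv_mem' := by
          rintro x ⟨hx, hx'⟩
          exact ⟨inv_mem hx, by rw [inv_pow, hx', inv_one]⟩ }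
    have hLn : L.Normal := by
      refine ⟨fun x hx b => ⟨hD.conj_mem x hx.1 b, ?_⟩⟩
      rw [conj_pow, hx.2, mul_one, mul_inv_cancel]
    have hL : L = ⊥ := by
      refine h2 L hLn (fun x hx => hDS hx.1) ?_
      rw [hp.coprime_iff_not_dvd]
      intro hdvd
      obtain ⟨⟨x, hx⟩, hxo⟩ := exists_prime_orderOf_dvd_card' p hdvd
      have h4 : (⟨x, hx⟩ : L) ^ l = 1 := Subtype.ext hx.2
      have h5 := orderOf_dvd_of_pow_eq_one h4
      rw [hxo] at h5
      exact hlp ((Nat.prime_dvd_prime_iff_eq hp hl).1 h5).symm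
    obtain ⟨x, hxD, hxZ⟩ := SetLike.exists_of_lt hZD
    have h4 : x ^ p ^ j ∈ L := by
      refine ⟨pow_mem hxD _, ?_⟩
      rw [← pow_mul, mul_comm, pow_mul]
      exact hQpow _ (hpow x hxD).2
    rw [hL, Subgroup.mem_bot] at h4
    have h5 := hpow x hxD
    have i := hZn
    rw [mem_iff_pow] at h5
    have h6 : (QuotientGroup.mk' (C ⊓ Q) x) ^ p ^ j = 1 := by rw [← map_pow, h4, map_one]
    have h7 := orderOf_dvd_of_pow_eq_one h5
    have h8 := orderOf_dvd_of_pow_eq_one h6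
    have h9 := orderOf_eq_one_iff.1 (Nat.eq_one_of_dvd_coprimes hcop h7 h8)
    exact hxZ ((QuotientGroup.eq_one_iff x).1 h9)

end HHAux

open HHAux

theorem hall_higman {G : Type*} [Group G] {p : ℕ} (hp : p.Prime) {G0 N : Subgroup G}
    (hG0 : G0.Normal) (hN : SN G0 N) (g : G) (hg : g ∈ G0)
    (h : ∀ x ∈ Qp p G0 N, x * g * x⁻¹ * g⁻¹ ∈ Kp p G0 N) : g ∈ Qp p G0 N := by
  have hKs := Kp_spec (p := p) hG0 hN
  have hQs := Qp_spec hp hG0 hN
  have hKf := Kp_fin (p := p) hG0 hN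
  have iK := hKs.normal
  have iQ := hQs.normal
  have iN := hN.fin
  have hfp : Fact p.Prime := ⟨hp⟩
  set K := Kp p G0 N with hK
  set Q := Qp p G0 N with hQ
  have hfin : Finite (G ⧸ K) := Subgroup.finite_quotient_of_finiteIndex
  have hS : (G0.map (QuotientGroup.mk' K)).Normal :=
    hG0.map _ (QuotientGroup.mk'_surjective K)
  have hQ' : (Q.map (QuotientGroup.mk' K)).Normal :=
    iQ.map _ (QuotientGroup.mk'_surjective K)
  have hker : (QuotientGroup.mk' K).ker = K := QuotientGroup.ker_mk' K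
  have hsol : Group.IsSolvable (G0.map (QuotientGroup.mk' K)) := by
    obtain ⟨k, hk⟩ := hN.sol
    refine ⟨⟨k, ?_⟩⟩
    have h1 : (derivedSeries G0 k).map ((QuotientGroup.mk' K).subgroupMap G0) =
        derivedSeries (G0.map (QuotientGroup.mk' K)) k :=
      map_derivedSeries_eq ((QuotientGroup.mk' K).subgroupMap_surjective G0) k
    rw [← h1, eq_bot_iff]
    rintro y ⟨x, hx, rfl⟩
    rw [Subgroup.mem_bot]
    refine Subtype.ext ?_
    have h2 : (x : G) ∈ N := hk ⟨x, hx, rfl⟩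
    exact (QuotientGroup.eq_one_iff (x : G)).2 (hKs.le h2)
  have hcard : ∀ M : Subgroup G, K.relIndex M = Nat.card (M.map (QuotientGroup.mk' K)) := by
    intro M
    have h1 := Subgroup.relIndex_ker M (QuotientGroup.mk' K)
    rw [hker] at h1
    exact h1
  have hmc : ∀ P : Subgroup (G ⧸ K), (P.comap (QuotientGroup.mk' K)).map (QuotientGroup.mk' K) = P :=
    fun P => Subgroup.map_comap_eq_self_of_surjective (QuotientGroup.mk'_surjective K) P
  have hKc : ∀ P : Subgroup (G ⧸ K), K ≤ P.comap (QuotientGroup.mk' K) := by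
    intro P x hx
    have h1 : QuotientGroup.mk' K x = 1 := (QuotientGroup.eq_one_iff x).2 hx
    show QuotientGroup.mk' K x ∈ P
    rw [h1]
    exact one_mem _
  have hcG : ∀ P : Subgroup (G ⧸ K), P ≤ G0.map (QuotientGroup.mk' K) →
      P.comap (QuotientGroup.mk' K) ≤ G0 := by
    intro P hP
    have h1 := Subgroup.comap_mono (f := QuotientGroup.mk' K) hP
    rw [Subgroup.comap_map_eq, hker, sup_eq_left.2 hKs.le'] at h1
    exact h1
  have h2 : ∀ L : Subgroup (G ⧸ K), L.Normal → L ≤ G0.map (QuotientGroup.mk' K) →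
      Nat.Coprime p (Nat.card L) → L = ⊥ := by
    intro L hL hLS hcop
    have h3 : L.comap (QuotientGroup.mk' K) ≤ K := by
      refine le_Kp ⟨hL.comap _, hKs.le.trans (hKc L), hcG L hLS, ?_⟩
      rw [← Subgroup.relIndex_mul_relIndex N K _ hKs.le (hKc L), hcard, hmc]
      exact hKs.cop.mul_right hcop
    rw [eq_bot_iff, ← hmc L]
    refine (Subgroup.map_mono h3).trans ?_
    rw [le_bot_iff, Subgroup.map_eq_bot_iff, hker]
  have h3 : ∀ P : Subgroup (G ⧸ K), P.Normal → P ≤ G0.map (QuotientGroup.mk' K) →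
      IsPGroup p P → P ≤ Q.map (QuotientGroup.mk' K) := by
    intro P hP hPS hPp
    obtain ⟨k, hk⟩ := IsPGroup.iff_card.1 hPp
    have h4 : P.comap (QuotientGroup.mk' K) ≤ Q := by
      refine le_Qp ⟨hP.comap _, hKc P, hcG P hPS, k, ?_⟩
      rw [← hK, hcard, hmc, hk]
    rw [← hmc P]
    exact Subgroup.map_mono h4
  have hQp : IsPGroup p (Q.map (QuotientGroup.mk' K)) := by
    obtain ⟨k, hk⟩ := hQs.pow
    exact IsPGroup.iff_card.2 ⟨k, by rw [← hcard]; exact hk⟩
  have hg' : QuotientGroup.mk' K g ∈ Q.map (QuotientGroup.mk' K) := by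
    refine hh_fin hp hS hQ' hsol h2 h3 hQp (Subgroup.mem_map_of_mem _ hg) ?_
    rintro _ ⟨x, hx, rfl⟩
    have h4 := h x hx
    have h5 : QuotientGroup.mk' K (x * g * x⁻¹ * g⁻¹) = 1 := (QuotientGroup.eq_one_iff _).2 h4
    rw [map_mul, map_mul, map_mul, map_inv, map_inv] at h5
    have h6 := mul_inv_eq_one.1 h5
    exact mul_inv_eq_iff_eq_mul.1 h6
  have h7 : g ∈ (Q.map (QuotientGroup.mk' K)).comap (QuotientGroup.mk' K) := hg'
  rw [Subgroup.comap_map_eq, hker, sup_eq_left.2 hQs.le] at h7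
  exact h7

end P9700h
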