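import Mathlib
import Pool.Agent.Lib.P9700a.Rank
import Pool.Agent.Lib.P9700d.Defs
import Pool.Agent.Lib.P9700d.Num
import Pool.Agent.Lib.P9700d.NasP
import Pool.Agent.Lib.P9700d.Wiel
import Pool.Agent.Lib.P9700d.NasS
import Pool.Agent.Lib.P9700d.RelV
import Pool.Agent.Lib.P9700h.Defs

/-!
# Elementary abelian sections of the finite quotients of `G = A B` have bounded rank, uniformly in the prime

`r` = the maximum of the special ranks of `A` and `B`, `e` from `P9700d.exists_bound r`. Let `M1 ≤ M` be normal, `M1` of finite index, `M / M1` elementary abelian. `Q = G ⧸ M1` is finite, `A'`, `B'` the images of `A` and `B`, `Q = A' B'`, `RKS r A'`, `RKS r B'` (see `NasS.lean`, `rks_quot`). Let `S` be a Sylow `p`-subgroup of `Q`; the image `E` of `M` in `Q` is a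
normal `p`-subgroup of `Q`, so `E ≤ S` (`IsPGroup.le_sylow...`: a normal `p`-subgroup lies in every Sylow `p`-subgroup). `exists_sylow_prod` gives `S = A1 B1` with `A1`, `B1` conjugate to subgroups of `A'`, `B'`; `RKS r` for them. `nas_of_prod` gives `NAS e S`: so the normal abelian subgroup `E` of `S` is generated by at most `e` elements, and an elementary abelian
`p`-group generated by `e` elements has order `≤ p ^ e` (`Cnt.lean`: `relIndex_le_pow` or `relIndex_le_of_NAS` in `RelV.lean`). `|E| = M1.relIndex M`. (The case where `M` is not contained in `G0` does not occur, the bound holds for all `M`.)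
-/

set_option autoImplicit false

namespace P9700h

open P9700a P9700d

theorem exists_EBS {G : Type*} [Group G] (G0 A B : Subgroup G) (hA : FR A) (hB : FR B)
    (hAB : ∀ g : G, ∃ a ∈ A, ∃ b ∈ B, g = a * b) : ∃ e : ℕ, EBS e G0 := by
  obtain ⟨rA, hrA⟩ := (fr_iff A).1 hA
  obtain ⟨rB, hrB⟩ := (fr_iff B).1 hB
  obtain ⟨e, he⟩ := exists_bound (max rA rB)
  refine ⟨e, fun p hp M M1 hM hM1 hfin _ hEA => ?_⟩
  have : Fact p.Prime := ⟨hp⟩
  have := hM1
  have := hfin
  let f : G →* G ⧸ M1 := QuotientGroup.mk' M1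
  have hfs : Function.Surjective f := QuotientGroup.mk'_surjective M1
  have hker : f.ker = M1 := QuotientGroup.ker_mk' M1
  have hE : IsPGroup p (M.map f) := by
    rintro ⟨_, x, hx, rfl⟩
    refine ⟨1, Subtype.ext ?_⟩
    show (f x) ^ p ^ 1 = 1
    rw [pow_one, ← map_pow]
    exact (QuotientGroup.eq_one_iff _).2 (hEA.pow x hx)
  obtain ⟨P, hP⟩ := hE.exists_le_sylow
  have hM1S : M1 ≤ (P : Subgroup (G ⧸ M1)).comap f := by
    intro x hx
    have h1 : f x = 1 := (QuotientGroup.eq_one_iff _).2 hx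
    show f x ∈ (P : Subgroup (G ⧸ M1))
    rw [h1]
    exact Subgroup.one_mem _
  have hMS : M ≤ (P : Subgroup (G ⧸ M1)).comap f := fun x hx => hP (Subgroup.mem_map_of_mem f hx)
  have hk : ∃ k : ℕ, M1.relIndex ((P : Subgroup (G ⧸ M1)).comap f) = p ^ k := by
    obtain ⟨k, hk⟩ := IsPGroup.iff_card.1 P.isPGroup'
    refine ⟨k, ?_⟩
    have h1 : M1 = (⊥ : Subgroup (G ⧸ M1)).comap f := by
      rw [MonoidHom.comap_bot]
      exact hker.symm
    have h2 : ((⊥ : Subgroup (G ⧸ M1)).comap f).relIndex ((P : Subgroup (G ⧸ M1)).comap f) = p ^ k := by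
      rw [Subgroup.relIndex_comap, Subgroup.map_comap_eq_self_of_surjective hfs, Subgroup.relIndex_bot_left]
      exact hk
    rw [← h1] at h2
    exact h2
  have hidx : ¬ p ∣ ((P : Subgroup (G ⧸ M1)).comap f).index := by
    rw [Subgroup.index_comap_of_surjective _ hfs]
    exact P.not_dvd_index
  have hnas := nas_quot A B (max rA rB) e
    (fun K hK hKf => by
      obtain ⟨s, hs, h⟩ := hrA K hK hKf
      exact ⟨s, hs.trans (le_max_left _ _), h⟩)
    (fun K hK hKf => by
      obtain ⟨s, hs, h⟩ := hrB K hK hKf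
      exact ⟨s, hs.trans (le_max_right _ _), h⟩)
    hAB (fun n hn => he p n hp.two_le hn) ((P : Subgroup (G ⧸ M1)).comap f) M1 hfin hM1S hk hidx
  have h := relIndex_le_of_NAS (M1.subgroupOf ((P : Subgroup (G ⧸ M1)).comap f)) e hnas
    (M.subgroupOf ((P : Subgroup (G ⧸ M1)).comap f)) (M1.subgroupOf ((P : Subgroup (G ⧸ M1)).comap f))
    (hM.subgroupOf _) (hM1.subgroupOf _) le_rfl (Subgroup.comap_mono hEA.le)
    (by
      rw [Subgroup.commutator_le]
      intro x hx y hy
      exact hEA.comm x hx y hy)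
    (fun x hx => hEA.pow x hx)
  have h2 := h.2
  rw [Subgroup.relIndex_subgroupOf hMS] at h2
  exact h2

end P9700h
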