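import Mathlib
import Pool.Agent.Lib.P9700h.Defs

/-!
# Automorphisms of a finite `p`-group that are trivial on the Frattini quotient have `p`-power order

`P = Q ⧸ K.subgroupOf Q` is a finite `p`-group, `g` acts on it by conjugation (automorphism `φ`), trivially modulo the subgroup `F` generated by the `p`-th powers and commutators of `P` (the image of `FrK p K Q`).
Let `Γ` be the finite group of all automorphisms of `P` acting trivially on `P / F` (or just `Subgroup.zpowers φ`). Claim: every element `ψ ∈ Γ` of order prime to `p` is trivial: then with `n = p ^ m n'` the order of `φ`, `φ ^ (p ^ m)` has order `n'` prime to `p`, so `φ ^ (p ^ m) = 1`, which is the assertion.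
Proof of the claim (`ψ` of prime order `l ≠ p` suffices, or directly of order `n'` prime to `p`): for every coset `x F` the group `⟨ψ⟩` acts on the finite set `x F`, whose size is a power of `p`... take `ψ` of prime order `l ≠ p`: `l` does not divide `|x F|`, so `ψ` has a fixed point in every coset `x F` (`Equiv.Perm`/`MulAction` of a group of prime order,
`IsPGroup.card_modEq_card_fixedPoints` for the `l`-group `⟨ψ⟩`). The fixed points form a subgroup `H` of `P` with `H F = P`. `F` is generated by `p`-th powers and commutators of the finite `p`-group `P`, so it lies in every maximal subgroup (index `p`, normal); so `H = P` (if `H < P`, take a maximal subgroup `M ≥ H`; `M` is normal of index `p`: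
`IsPGroup`/nilpotent groups satisfy the normalizer condition; then `F ≤ M` and `H F ≤ M`). So `ψ = 1`.
(See also `P9700r/RankElem.lean` for the fact that `H F = P` implies `H = P`.)
-/

set_option autoImplicit false

namespace P9700h

namespace FratAux

/-- the subgroup generated by `p`-th powers and commutators. -/
def Fr (p : ℕ) (P : Type*) [Group P] : Subgroup P :=
  Subgroup.closure ({y | ∃ x : P, x ^ p = y} ∪ {y | ∃ a b : P, a * b * a⁻¹ * b⁻¹ = y})

theorem pow_mem_Fr {P : Type*} [Group P] {p : ℕ} (x : P) : x ^ p ∈ Fr p P :=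
  Subgroup.subset_closure (Or.inl ⟨x, rfl⟩)

theorem comm_mem_Fr {P : Type*} [Group P] {p : ℕ} (a b : P) : a * b * a⁻¹ * b⁻¹ ∈ Fr p P :=
  Subgroup.subset_closure (Or.inr ⟨a, b, rfl⟩)

theorem Fr_normal {P : Type*} [Group P] {p : ℕ} : (Fr p P).Normal := by
  refine ⟨fun n hn g => ?_⟩
  have e : g * n * g⁻¹ = (g * n * g⁻¹ * n⁻¹) * n := by group
  rw [e]
  exact (Fr p P).mul_mem (comm_mem_Fr g n) hn

/-- a maximal subgroup of a finite `p`-group contains all `p`-th powers and commutators. -/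
theorem coatom {P : Type*} [Group P] [Finite P] {p : ℕ} (hp : p.Prime) (hP : IsPGroup p P)
    {M : Subgroup P} (hM : IsCoatom M) : Fr p P ≤ M := by
  haveI := Fact.mk hp
  haveI hnil : Group.IsNilpotent P := hP.isNilpotent
  have hnc : NormalizerCondition P := Group.normalizerCondition_of_isNilpotent
  haveI hn : M.Normal := Subgroup.NormalizerCondition.normal_of_coatom M hnc hM
  have hQ : IsPGroup p (P ⧸ M) := hP.to_quotient M
  haveI : Nontrivial (P ⧸ M) := (QuotientGroup.nontrivial_iff).2 hM.1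
  haveI : Nontrivial (Subgroup.center (P ⧸ M)) := hQ.center_nontrivial
  have hC : IsPGroup p (Subgroup.center (P ⧸ M)) := hQ.to_subgroup _
  obtain ⟨n, hn0, hcard⟩ := (hC.nontrivial_iff_card).1 inferInstance
  obtain ⟨z, hz⟩ := exists_prime_orderOf_dvd_card' (G := Subgroup.center (P ⧸ M)) p
    (by rw [hcard]; exact dvd_pow_self p (by omega))
  have hzp : (z : P ⧸ M) ^ p = 1 := by
    rw [← Subgroup.coe_pow, ← hz, pow_orderOf_eq_one, Subgroup.coe_one]
  have hz1 : (z : P ⧸ M) ≠ 1 := by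
    intro h
    have h2 : z = 1 := by ext; exact h
    rw [h2, orderOf_one] at hz
    exact hp.one_lt.ne hz
  have hT : (Subgroup.zpowers (z : P ⧸ M)).comap (QuotientGroup.mk' M) = ⊤ := by
    apply hM.2
    rw [lt_iff_le_and_ne]
    constructor
    · intro x hx
      rw [Subgroup.mem_comap]
      have h1 : (QuotientGroup.mk' M) x = 1 := (QuotientGroup.eq_one_iff x).2 hx
      rw [h1]
      exact Subgroup.one_mem _
    · intro h
      obtain ⟨x, hx⟩ := QuotientGroup.mk'_surjective M (z : P ⧸ M)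
      have h1 : x ∈ M := by
        rw [h, Subgroup.mem_comap, hx]
        exact Subgroup.mem_zpowers _
      apply hz1
      rw [← hx]
      exact (QuotientGroup.eq_one_iff x).2 h1
  have hall : ∀ x : P, ∃ k : ℤ, (z : P ⧸ M) ^ k = (QuotientGroup.mk' M) x := by
    intro x
    have h1 : x ∈ (Subgroup.zpowers (z : P ⧸ M)).comap (QuotientGroup.mk' M) := by
      rw [hT]
      exact Subgroup.mem_top x
    rw [Subgroup.mem_comap] at h1
    exact Subgroup.mem_zpowers_iff.1 h1
  rw [Fr, Subgroup.closure_le]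
  rintro y (⟨x, rfl⟩ | ⟨a, b, rfl⟩)
  · obtain ⟨k, hk⟩ := hall x
    have h1 : (QuotientGroup.mk' M) (x ^ p) = 1 := by
      rw [map_pow, ← hk, ← zpow_natCast, ← zpow_mul, mul_comm, zpow_mul, zpow_natCast, hzp,
        one_zpow]
    exact (QuotientGroup.eq_one_iff _).1 h1
  · obtain ⟨i, hi⟩ := hall a
    obtain ⟨j, hj⟩ := hall b
    have h1 : (QuotientGroup.mk' M) (a * b * a⁻¹ * b⁻¹) = 1 := by
      rw [map_mul, map_mul, map_mul, map_inv, map_inv, ← hi, ← hj, ← zpow_add, ← zpow_neg,
        ← zpow_neg, ← zpow_add, ← zpow_add]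
      have e : i + j + -i + -j = 0 := by ring
      rw [e, zpow_zero]
    exact (QuotientGroup.eq_one_iff _).1 h1

/-- `H F = P` implies `H = P`. -/
theorem nongen {P : Type*} [Group P] [Finite P] {p : ℕ} (hp : p.Prime) (hP : IsPGroup p P)
    {H : Subgroup P} (h : ∀ x : P, ∃ y ∈ H, x⁻¹ * y ∈ Fr p P) : H = ⊤ := by
  rcases eq_top_or_exists_le_coatom H with h1 | ⟨M, hM, hHM⟩
  · exact h1
  · exfalso
    apply hM.1
    rw [eq_top_iff]
    intro x _
    obtain ⟨y, hy, hxy⟩ := h x
    have h2 : x⁻¹ * y ∈ M := coatom hp hP hM hxy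
    have h3 : y ∈ M := hHM hy
    have e : x = y * (x⁻¹ * y)⁻¹ := by group
    rw [e]
    exact M.mul_mem h3 (M.inv_mem h2)

/-- an automorphism of prime order `l ≠ p`, trivial modulo `F`, has a fixed point in every coset. -/
theorem fixed {P : Type*} [Group P] [Finite P] {p : ℕ} (hp : p.Prime) (hP : IsPGroup p P)
    {l : ℕ} (hl : l.Prime) (hlp : l ≠ p) (θ : MulAut P) (hθ : θ ^ l = 1)
    (hF : ∀ x : P, x⁻¹ * θ x ∈ Fr p P) (x : P) : ∃ y : P, θ y = y ∧ x⁻¹ * y ∈ Fr p P := by
  classical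
  haveI := Fact.mk hp
  haveI := Fact.mk hl
  have hN : (Fr p P).Normal := Fr_normal
  have hpr : ∀ y : P, (x⁻¹ * (θ.toEquiv : Equiv.Perm P) y ∈ Fr p P) ↔ (x⁻¹ * y ∈ Fr p P) := by
    intro y
    have e : x⁻¹ * (θ.toEquiv : Equiv.Perm P) y = (x⁻¹ * y) * (y⁻¹ * θ y) := by
      change x⁻¹ * θ y = _
      group
    rw [e]
    exact (Fr p P).mul_mem_cancel_right (hF y)
  let σ : Equiv.Perm {y : P // x⁻¹ * y ∈ Fr p P} :=
    Equiv.Perm.subtypePerm (θ.toEquiv : Equiv.Perm P) hpr
  have hσ0 : ∀ y, ((σ y : {y : P // x⁻¹ * y ∈ Fr p P}) : P) = θ y := fun y => rfl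
  have hσ1 : ∀ (n : ℕ) (y : {y : P // x⁻¹ * y ∈ Fr p P}),
      (((σ ^ n) y : {y : P // x⁻¹ * y ∈ Fr p P}) : P) = (θ ^ n) y := by
    intro n
    induction n with
    | zero => intro y; rfl
    | succ n ih =>
      intro y
      rw [pow_succ', pow_succ', Equiv.Perm.mul_apply, hσ0, ih, MulAut.mul_apply]
  have hσ : σ ^ l ^ 1 = 1 := by
    rw [pow_one]
    ext y
    rw [hσ1, hθ]
    rfl
  haveI : Fintype {y : P // x⁻¹ * y ∈ Fr p P} := Fintype.ofFinite _
  have hcard : ¬ l ∣ Fintype.card {y : P // x⁻¹ * y ∈ Fr p P} := by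
    have e : {y : P // x⁻¹ * y ∈ Fr p P} ≃ Fr p P :=
      { toFun := fun y => ⟨x⁻¹ * y.1, y.2⟩
        invFun := fun f => ⟨x * f.1, by
          have : x⁻¹ * (x * f.1) = f.1 := by group
          rw [this]
          exact f.2⟩
        left_inv := fun y => by
          apply Subtype.ext
          change x * (x⁻¹ * y.1) = y.1
          group
        right_inv := fun f => by
          apply Subtype.ext
          change x⁻¹ * (x * f.1) = f.1
          group }
    obtain ⟨k, hk⟩ := (IsPGroup.iff_card (p := p) (G := Fr p P)).1 (hP.to_subgroup _)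
    rw [← Nat.card_eq_fintype_card, Nat.card_congr e, hk]
    intro h
    exact hlp ((Nat.prime_dvd_prime_iff_eq hl hp).1 (hl.dvd_of_dvd_pow h))
  obtain ⟨a, ha⟩ := Equiv.Perm.exists_fixed_point_of_prime hcard hσ
  refine ⟨a.1, ?_, a.2⟩
  have := congrArg Subtype.val ha
  rwa [hσ0] at this

/-- an automorphism that is trivial modulo `F` has `p`-power order. -/
theorem main {P : Type*} [Group P] [Finite P] {p : ℕ} (hp : p.Prime) (hP : IsPGroup p P)
    (φ : MulAut P) (hF : ∀ x : P, x⁻¹ * φ x ∈ Fr p P) : ∃ m : ℕ, φ ^ (p ^ m) = 1 := by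
  have hn0 : orderOf φ ≠ 0 := (orderOf_pos φ).ne'
  obtain ⟨m, n', hn', hn⟩ := Nat.exists_eq_pow_mul_and_not_dvd hn0 p hp.one_lt.ne'
  have hpowF : ∀ (k : ℕ) (x : P), x⁻¹ * (φ ^ k) x ∈ Fr p P := by
    intro k
    induction k with
    | zero =>
      intro x
      have e : x⁻¹ * (φ ^ 0) x = 1 := by
        rw [pow_zero, MulAut.one_apply]
        group
      rw [e]
      exact Subgroup.one_mem _
    | succ k ih =>
      intro x
      have e : x⁻¹ * (φ ^ (k + 1)) x = (x⁻¹ * (φ ^ k) x) * (((φ ^ k) x)⁻¹ * φ ((φ ^ k) x)) := by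
        rw [pow_succ', MulAut.mul_apply]
        group
      rw [e]
      exact (Fr p P).mul_mem (ih x) (hF _)
  have h1 : n' = 1 := by
    by_contra hne
    obtain ⟨l, hl, hld⟩ := Nat.exists_prime_and_dvd hne
    have hlp : l ≠ p := by
      rintro rfl
      exact hn' hld
    have hlo : l ∣ orderOf φ := by
      rw [hn]
      exact hld.mul_left _
    obtain ⟨c, hc⟩ := hlo
    have hc0 : c ≠ 0 := by
      rintro rfl
      rw [mul_zero] at hc
      exact hn0 hc
    have hθ : (φ ^ c) ^ l = 1 := by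
      rw [← pow_mul, mul_comm, ← hc, pow_orderOf_eq_one]
    have hθ1 : φ ^ c ≠ 1 := by
      apply pow_ne_one_of_lt_orderOf hc0
      rw [hc]
      have : 1 < l := hl.one_lt
      have : 0 < c := Nat.pos_of_ne_zero hc0
      nlinarith
    apply hθ1
    have hfix := fixed hp hP hl hlp (φ ^ c) hθ (hpowF c)
    let H : Subgroup P :=
      { carrier := {y | (φ ^ c) y = y}
        mul_mem' := by
          intro a b ha hb
          change (φ ^ c) (a * b) = a * b
          rw [map_mul, ha, hb]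
        one_mem' := by
          change (φ ^ c) 1 = 1
          rw [map_one]
        inv_mem' := by
          intro a ha
          change (φ ^ c) a⁻¹ = a⁻¹
          rw [map_inv, ha] }
    have hH : H = ⊤ := by
      apply nongen hp hP
      intro x
      obtain ⟨y, hy, hxy⟩ := hfix x
      exact ⟨y, hy, hxy⟩
    ext x
    have : x ∈ H := by
      rw [hH]
      exact Subgroup.mem_top x
    exact this
  refine ⟨m, ?_⟩
  rw [h1, mul_one] at hn
  rw [← hn, pow_orderOf_eq_one]

end FratAux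

theorem frat {G : Type*} [Group G] {p : ℕ} (hp : p.Prime) {Q K : Subgroup G} (hQ : Q.Normal)
    (hK : K.Normal) (hKQ : K ≤ Q) (hpow : ∃ k : ℕ, K.relIndex Q = p ^ k) (g : G)
    (hg : ∀ x ∈ Q, x * g * x⁻¹ * g⁻¹ ∈ FrK p K Q) :
    ∃ m : ℕ, ∀ x ∈ Q, x * g ^ (p ^ m) * x⁻¹ * (g ^ (p ^ m))⁻¹ ∈ K := by
  have hp' := Fact.mk hp
  haveI := hK
  haveI := hQ
  obtain ⟨k, hk⟩ := hpow
  let π : G →* G ⧸ K := QuotientGroup.mk' K
  let Q' : Subgroup (G ⧸ K) := Q.map π
  haveI hQ' : Q'.Normal := Subgroup.Normal.map hQ π (QuotientGroup.mk'_surjective K)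
  have hcard : Nat.card Q' = p ^ k := by
    rw [← hk]
    have h1 := Subgroup.relIndex_ker (K := Q) π
    rw [← h1]
    congr 1
    exact QuotientGroup.ker_mk' K
  haveI hfin : Finite Q' := by
    apply Nat.finite_of_card_ne_zero
    rw [hcard]
    exact pow_ne_zero _ hp.pos.ne'
  have hP : IsPGroup p Q' := IsPGroup.of_card hcard
  have hle : FrK p K Q ≤ ((FratAux.Fr p Q').map Q'.subtype).comap π := by
    rw [FrK, sup_le_iff]
    constructor
    · rw [Subgroup.closure_le]
      rintro y (⟨x, hx, rfl⟩ | ⟨a, ha, b, hb, rfl⟩)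
      · refine ⟨⟨π x, x, hx, rfl⟩ ^ p, FratAux.pow_mem_Fr _, ?_⟩
        simp
      · refine ⟨(⟨π a, a, ha, rfl⟩ : Q') * ⟨π b, b, hb, rfl⟩ * (⟨π a, a, ha, rfl⟩ : Q')⁻¹ *
          (⟨π b, b, hb, rfl⟩ : Q')⁻¹, FratAux.comm_mem_Fr _ _, ?_⟩
        simp
    · intro x hx
      rw [Subgroup.mem_comap]
      have h1 : π x = 1 := (QuotientGroup.eq_one_iff x).2 hx
      rw [h1]
      exact Subgroup.one_mem _
  have hmain := FratAux.main hp hP (MulAut.conjNormal (H := Q') (π g)) (by
    rintro ⟨y, x, hx, rfl⟩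
    have h1 := hle (hg x⁻¹ (Q.inv_mem hx))
    rw [Subgroup.mem_comap, Subgroup.mem_map] at h1
    obtain ⟨w, hw, hwe⟩ := h1
    have h2 : (⟨π x, x, hx, rfl⟩ : Q')⁻¹ *
        (MulAut.conjNormal (H := Q') (π g)) ⟨π x, x, hx, rfl⟩ = w := by
      apply Subtype.ext
      rw [Subgroup.coe_mul, MulAut.conjNormal_apply, Subgroup.coe_inv]
      change (π x)⁻¹ * (π g * π x * (π g)⁻¹) = (w : G ⧸ K)
      have h3 : (w : G ⧸ K) = π (x⁻¹ * g * x⁻¹⁻¹ * g⁻¹) := hwe
      rw [h3, map_mul, map_mul, map_mul, map_inv, map_inv, map_inv, map_inv, inv_inv]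
      group
    rw [h2]
    exact hw)
  obtain ⟨m, hm⟩ := hmain
  refine ⟨m, ?_⟩
  intro x hx
  rw [← map_pow] at hm
  have h1 : (MulAut.conjNormal (H := Q') (π g ^ p ^ m)) ⟨π x, x, hx, rfl⟩ = ⟨π x, x, hx, rfl⟩ := by
    rw [hm]
    rfl
  have h2 := congrArg Subtype.val h1
  rw [MulAut.conjNormal_apply] at h2
  have h3 : π g ^ p ^ m * π x * (π g ^ p ^ m)⁻¹ = π x := h2
  have h4 : π (x * g ^ (p ^ m) * x⁻¹ * (g ^ (p ^ m))⁻¹) = 1 := by
    rw [map_mul, map_mul, map_mul, map_inv, map_inv, map_pow]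
    have h5 : π g ^ p ^ m * π x = π x * π g ^ p ^ m := by
      have := congrArg (fun t => t * π g ^ p ^ m) h3
      simpa using this
    rw [← h5]
    group
  exact (QuotientGroup.eq_one_iff _).1 h4

end P9700h
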