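import Mathlib
import Pool.Agent.Lib.P9700h.Defs

/-!
# The family `SN G0`: closed under intersections, separates points

* `SN.inf`: `N ⊓ N'` is normal, of finite index, `(derivedSeries G0 k).map ≤ N`, `(derivedSeries G0 k').map ≤ N'` give the same for `max k k'` (`derivedSeries_antitone`).
* `exists_SN`: `G1 = G0.normalCore`. If `g ∉ G1` take `N = G1` (`k = 0`). If `g ∈ G1 ≤ G0`, let `M` be normal of finite index in `G0`, `G0 ⧸ M` soluble, `g ∉ M`; `M' = M.map G0.subtype`, of finite index in `G` (`Subgroup.index_map_subtype`),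
  `N = (M' ⊓ G1).normalCore`. Solubility: `derivedSeries (G0 ⧸ M) k = ⊥` gives `derivedSeries G0 k ≤ M` (`map_derivedSeries_eq` or `map_derivedSeries_le_derivedSeries` for `QuotientGroup.mk' M`), so the image `D` of `derivedSeries G1 k` in `G` lies in `M'` (`G1 ≤ G0`, `map_derivedSeries_le_derivedSeries` for the inclusion `G1 → G0`)
  and in `G1`; `D` is normal in `G` (`derivedSeries G1 k` is characteristic in the normal subgroup `G1`), so `D ≤ (M' ⊓ G1).normalCore` (`Subgroup.normal_le_normalCore`).
-/

set_option autoImplicit false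

namespace P9700h

variable {G : Type*} [Group G]

theorem SN.inf {G0 N N' : Subgroup G} (h : SN G0 N) (h' : SN G0 N') : SN G0 (N ⊓ N') := by
  obtain ⟨k, hk⟩ := h.sol
  obtain ⟨k', hk'⟩ := h'.sol
  have h1 := h.normal
  have h2 := h'.normal
  have h3 := h.fin
  have h4 := h'.fin
  refine ⟨inferInstance, inf_le_left.trans h.le, inferInstance, max k k', le_inf ?_ ?_⟩
  · exact (Subgroup.map_mono (derivedSeries_antitone G0 (le_max_left k k'))).trans hk
  · exact (Subgroup.map_mono (derivedSeries_antitone G0 (le_max_right k k'))).trans hk'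

theorem exists_SN (G0 : Subgroup G) (hG0 : G0.FiniteIndex)
    (hres : ∀ g : G0, g ≠ 1 → ∃ (N : Subgroup G0) (_ : N.Normal), N.FiniteIndex ∧
      Group.IsSolvable (G0 ⧸ N) ∧ g ∉ N)
    (g : G) (hg : g ≠ 1) : ∃ N, SN G0.normalCore N ∧ g ∉ N := by
  have hfin : G0.normalCore.FiniteIndex := inferInstance
  have hnor : G0.normalCore.Normal := inferInstance
  by_cases hgG : g ∈ G0.normalCore
  · have hgG0 : g ∈ G0 := G0.normalCore_le hgG
    obtain ⟨M, hMn, hMf, hMs, hgM⟩ := hres ⟨g, hgG0⟩ (by
      intro h
      exact hg (congrArg Subtype.val h))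
    obtain ⟨k, hk⟩ := hMs.solvable
    -- the derived series of `G0` ends up in `M`
    have hd : derivedSeries G0 k ≤ M := by
      have h1 := map_derivedSeries_le_derivedSeries (QuotientGroup.mk' M) k
      rw [hk] at h1
      intro x hx
      have h2 := h1 (Subgroup.mem_map_of_mem _ hx)
      rw [Subgroup.mem_bot] at h2
      exact (QuotientGroup.eq_one_iff x).1 h2
    let M' : Subgroup G := M.map G0.subtype
    have hM'f : M'.FiniteIndex := by
      refine ⟨?_⟩
      rw [Subgroup.index_map_subtype]
      exact mul_ne_zero hMf.index_ne_zero hG0.index_ne_zero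
    have hinf : (M' ⊓ G0.normalCore).FiniteIndex := inferInstance
    refine ⟨(M' ⊓ G0.normalCore).normalCore, ⟨inferInstance,
      (Subgroup.normalCore_le _).trans inf_le_right, inferInstance, k, ?_⟩, fun h => ?_⟩
    · -- the image of the derived subgroup
      have hchar : (derivedSeries G0.normalCore k).Characteristic := inferInstance
      have hDn : ((derivedSeries G0.normalCore k).map G0.normalCore.subtype).Normal :=
        ConjAct.normal_of_characteristic_of_normal
      refine Subgroup.normal_le_normalCore.2 (le_inf ?_ ?_)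
      · rintro _ ⟨x, hx, rfl⟩
        have h1 := map_derivedSeries_le_derivedSeries
          (Subgroup.inclusion G0.normalCore_le) k (Subgroup.mem_map_of_mem _ hx)
        exact ⟨Subgroup.inclusion G0.normalCore_le x, hd h1, rfl⟩
      · rintro _ ⟨x, hx, rfl⟩
        exact x.2
    · obtain ⟨x, hx, hxg⟩ := ((Subgroup.normalCore_le _) h).1
      apply hgM
      have : x = ⟨g, hgG0⟩ := Subtype.ext hxg
      rw [← this]
      exact hx
  · refine ⟨G0.normalCore, ⟨hnor, le_refl _, hfin, 0, ?_⟩, hgG⟩
    rintro _ ⟨x, -, rfl⟩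
    exact x.2

end P9700h
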