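import Mathlib
import Pool.Agent.Lib.P9700h.Defs
import Pool.Agent.Lib.P9700h.SNa
import Pool.Agent.Lib.P9700h.KQa

/-!
# The subgroups `KI p G0`

* `KI_normal`: an intersection of normal subgroups (`Kp_spec`).
* `KI_sep`: let `g ≠ 1`; choose `N` in the family with `g ∉ N`. If `g ∉ G0` then `g ∉ Kp 2 G0 N ≤ G0`. If `g ∈ G0`: suppose `g ∈ Kp p G0 N` for all primes `p`. The order of `g` modulo `N` divides `N.relIndex (Kp p G0 N)` (Lagrange in `(Kp p G0 N) ⧸ N.subgroupOf _`), prime to `p`, for all primes `p`; so it is `1` and `g ∈ N`, a contradiction.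
-/

set_option autoImplicit false

namespace P9700h

variable {G : Type*} [Group G] {G0 : Subgroup G}

theorem KI_le_Kp {p : ℕ} {N : Subgroup G} (hN : SN G0 N) : KI p G0 ≤ Kp p G0 N := by
  exact sInf_le ⟨N, hN, rfl⟩

theorem mem_KI {p : ℕ} {g : G} : g ∈ KI p G0 ↔ ∀ N, SN G0 N → g ∈ Kp p G0 N := by
  unfold KI
  rw [Subgroup.mem_sInf]
  constructor
  · intro h N hN
    exact h _ ⟨N, hN, rfl⟩
  · rintro h _ ⟨N, hN, rfl⟩
    exact h N hN

theorem KI_normal {p : ℕ} (hG0 : G0.Normal) : (KI p G0).Normal := by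
  constructor
  intro g hg x
  rw [mem_KI] at hg ⊢
  intro N hN
  exact (Kp_spec (p := p) hG0 hN).normal.conj_mem g (hg N hN) x

/-- an element lying in `Kp p G0 N` for all primes `p` lies in `N`. -/
theorem mem_of_Kp (hG0 : G0.Normal) {N : Subgroup G} (hN : SN G0 N) {g : G}
    (h : ∀ p : ℕ, p.Prime → g ∈ Kp p G0 N) : g ∈ N := by
  have i1 := hN.normal
  have hpow : ∀ p : ℕ, p.Prime → orderOf (QuotientGroup.mk g : G ⧸ N) ∣
      N.relIndex (Kp p G0 N) := by
    intro p hp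
    have h1 := (N.subgroupOf (Kp p G0 N)).pow_index_mem ⟨g, h p hp⟩
    rw [Subgroup.mem_subgroupOf] at h1
    apply orderOf_dvd_of_pow_eq_one
    rw [← QuotientGroup.mk_pow, QuotientGroup.eq_one_iff]
    exact h1
  have h1 : orderOf (QuotientGroup.mk g : G ⧸ N) = 1 := by
    by_contra hne
    obtain ⟨p, hp, hpd⟩ := Nat.exists_prime_and_dvd hne
    have hc := (Kp_spec (p := p) hG0 hN).cop
    have h2 : p ∣ N.relIndex (Kp p G0 N) := hpd.trans (hpow p hp)
    exact hp.one_lt.ne' (Nat.dvd_one.1 (hc ▸ Nat.dvd_gcd dvd_rfl h2))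
  rw [orderOf_eq_one_iff, QuotientGroup.eq_one_iff] at h1
  exact h1

theorem KI_sep (hG0 : G0.Normal) (hsep : ∀ g : G, g ≠ 1 → ∃ N, SN G0 N ∧ g ∉ N) (g : G)
    (hg : ∀ p : ℕ, p.Prime → g ∈ KI p G0) : g = 1 := by
  by_contra hne
  obtain ⟨N, hN, hgN⟩ := hsep g hne
  exact hgN (mem_of_Kp hG0 hN fun p hp => mem_KI.1 (hg p hp) N hN)

end P9700h
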