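import Mathlib
import Pool.Agent.Lib.P9700h.Defs
import Pool.Agent.Lib.P9700h.KQa
import Pool.Agent.Lib.P9700h.HH
import Pool.Agent.Lib.P9700h.Frat

/-!
# The action of `G0` on the Frattini quotient of `Qp / Kp` has kernel `Qp`; the index of `Qp` is bounded

* `mem_Qp_of_triv`: `R = {g ∈ G0 : ∀ x ∈ Qp, x g x⁻¹ g⁻¹ ∈ FrK}` is a normal subgroup of `G` containing `Qp` (commutators of elements of `Qp` lie in `FrK`; `FrK` is normal because `Qp`, `Kp` are). For `g ∈ R` some `g ^ (p ^ m)` centralises `Qp` modulo `Kp` (`frat`), so it lies in `Qp` (`hall_higman`) and then a further `p`-power power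
  lies in `Kp`. So `(Kp p G0 N).relIndex R` is a power of `p` (finite group in which all orders are powers of `p`) and `R ≤ Qp` (`le_Qp`).
* `relIndex_Qp_le`: `FrK ≤ Qp` gives an elementary abelian section (`EA p (FrK p Kp Qp) Qp`; `FrK` has finite index), of order `≤ p ^ e`. The group `G0` acts by conjugation on the finite set `Qp ⧸ FrK.subgroupOf Qp` of size `≤ p ^ e` with kernel `≤ Qp`: so `(Qp).relIndex G0 ≤ (p ^ e) ^ (p ^ e)`, the number of maps of this set into itself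
  (if `g, h ∈ G0` induce the same map then `g⁻¹ h` acts trivially).
* `exists_Lp`: choose `N` in the family with `(Qp p G0 N).relIndex G0` maximal (bounded by `relIndex_Qp_le`); for `N'` in the family `Qp p G0 (N ⊓ N') ≤ Qp p G0 N` (`Qp_mono`), with `relIndex` at least as large, so equal (`Subgroup.relIndex_mul_relIndex`, finite indices), so `Qp p G0 N = Qp p G0 (N ⊓ N') ≤ Qp p G0 N'`.
-/

set_option autoImplicit false

namespace P9700h

variable {G : Type*} [Group G] {p : ℕ} {G0 N : Subgroup G}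

namespace RQAux

/-- the closure of a set invariant under conjugation is normal -/
theorem closure_normal {S : Set G} (h : ∀ g : G, ∀ x ∈ S, g * x * g⁻¹ ∈ S) :
    (Subgroup.closure S).Normal := by
  refine ⟨fun n hn g => ?_⟩
  have h1 : (Subgroup.closure S).map (MulAut.conj g).toMonoidHom ≤ Subgroup.closure S := by
    rw [MonoidHom.map_closure, Subgroup.closure_le]
    rintro _ ⟨x, hx, rfl⟩
    exact Subgroup.subset_closure (h g x hx)
  exact h1 ⟨n, hn, rfl⟩

theorem FrK_normal {K Q : Subgroup G} (hK : K.Normal) (hQ : Q.Normal) :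
    (FrK p K Q).Normal := by
  have h1 : (Subgroup.closure ({y | ∃ x ∈ Q, x ^ p = y} ∪
      {y | ∃ a ∈ Q, ∃ b ∈ Q, a * b * a⁻¹ * b⁻¹ = y})).Normal := by
    refine closure_normal fun g y hy => ?_
    rcases hy with ⟨x, hx, rfl⟩ | ⟨a, ha, b, hb, rfl⟩
    · exact Or.inl ⟨g * x * g⁻¹, hQ.conj_mem x hx g, by rw [conj_pow]⟩
    · exact Or.inr ⟨g * a * g⁻¹, hQ.conj_mem a ha g, g * b * g⁻¹, hQ.conj_mem b hb g, by group⟩
  exact Subgroup.sup_normal _ _

theorem FrK_le {K Q : Subgroup G} (hKQ : K ≤ Q) : FrK p K Q ≤ Q := by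
  refine sup_le ((Subgroup.closure_le _).2 ?_) hKQ
  rintro y (⟨x, hx, rfl⟩ | ⟨a, ha, b, hb, rfl⟩)
  · exact Q.pow_mem hx p
  · exact Q.mul_mem (Q.mul_mem (Q.mul_mem ha hb) (Q.inv_mem ha)) (Q.inv_mem hb)

theorem comm_iff {F : Subgroup G} [F.Normal] (x g : G) :
    x * g * x⁻¹ * g⁻¹ ∈ F ↔ (x : G ⧸ F) * (g : G ⧸ F) = (g : G ⧸ F) * (x : G ⧸ F) := by
  rw [← QuotientGroup.eq_one_iff]
  have : ((x * g * x⁻¹ * g⁻¹ : G) : G ⧸ F) =
      (x : G ⧸ F) * g * ((x : G ⧸ F))⁻¹ * ((g : G ⧸ F))⁻¹ := rfl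
  rw [this, mul_inv_eq_one, mul_inv_eq_iff_eq_mul]

/-- powers of the relative index -/
theorem pow_rel {K Q : Subgroup G} (hK : K.Normal) {x : G} (hx : x ∈ Q) :
    x ^ K.relIndex Q ∈ K := by
  have h : (K.subgroupOf Q).Normal := hK.subgroupOf Q
  have h1 := Subgroup.pow_index_mem (K.subgroupOf Q) ⟨x, hx⟩
  exact h1

/-- relative index of a group whose elements have order a power of `p` -/
theorem pgrp (hp : p.Prime) {K R : Subgroup G} (hK : K.Normal) (hfin : K.FiniteIndex)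
    (h : ∀ x ∈ R, ∃ m : ℕ, x ^ (p ^ m) ∈ K) : ∃ k : ℕ, K.relIndex R = p ^ k := by
  have _ := Fact.mk hp
  have i1 : (K.subgroupOf R).Normal := hK.subgroupOf R
  have i2 : (K.subgroupOf R).FiniteIndex := inferInstance
  have i3 : Finite (R ⧸ K.subgroupOf R) := inferInstance
  have h1 : IsPGroup p (R ⧸ K.subgroupOf R) := by
    intro y
    obtain ⟨x, rfl⟩ := QuotientGroup.mk_surjective y
    obtain ⟨m, hm⟩ := h x x.2
    refine ⟨m, ?_⟩
    rw [← QuotientGroup.mk_pow, QuotientGroup.eq_one_iff]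
    exact hm
  exact IsPGroup.iff_card.1 h1

end RQAux

open RQAux

theorem mem_Qp_of_triv (hp : p.Prime) (hG0 : G0.Normal) (hN : SN G0 N) (g : G) (hg : g ∈ G0)
    (h : ∀ x ∈ Qp p G0 N, x * g * x⁻¹ * g⁻¹ ∈ FrK p (Kp p G0 N) (Qp p G0 N)) :
    g ∈ Qp p G0 N := by
  have hK := Kp_spec (p := p) hG0 hN
  have hQ := Qp_spec hp hG0 hN
  have iK := hK.normal
  have iQ := hQ.normal
  have iF : (FrK p (Kp p G0 N) (Qp p G0 N)).Normal := FrK_normal iK iQ
  set F := FrK p (Kp p G0 N) (Qp p G0 N) with hF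
  have iM : ((Qp p G0 N).map (QuotientGroup.mk' F)).Normal :=
    iQ.map _ (QuotientGroup.mk'_surjective F)
  set C : Subgroup (G ⧸ F) :=
    Subgroup.centralizer (((Qp p G0 N).map (QuotientGroup.mk' F) : Subgroup (G ⧸ F)) :
      Set (G ⧸ F)) with hC
  have iC : C.Normal := by
    refine ⟨fun n hn y => ?_⟩
    rw [hC, Subgroup.mem_centralizer_iff] at hn ⊢
    intro z hz
    have h1 := hn (y⁻¹ * z * y) (by
      have := iM.conj_mem z hz y⁻¹
      rwa [inv_inv] at this)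
    calc z * (y * n * y⁻¹) = y * ((y⁻¹ * z * y) * n) * y⁻¹ := by group
      _ = y * (n * (y⁻¹ * z * y)) * y⁻¹ := by rw [h1]
      _ = y * n * y⁻¹ * z := by group
  have iCC : (C.comap (QuotientGroup.mk' F)).Normal := iC.comap _
  have hmem : ∀ a : G, a ∈ C.comap (QuotientGroup.mk' F) ↔
      ∀ x ∈ Qp p G0 N, x * a * x⁻¹ * a⁻¹ ∈ F := by
    intro a
    rw [Subgroup.mem_comap, hC, Subgroup.mem_centralizer_iff]
    constructor
    · intro h1 x hx
      rw [comm_iff]
      exact h1 _ ⟨x, hx, rfl⟩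
    · rintro h1 _ ⟨x, hx, rfl⟩
      exact (comm_iff x a).1 (h1 x hx)
  set R : Subgroup G := G0 ⊓ C.comap (QuotientGroup.mk' F) with hR
  have iR : R.Normal := Subgroup.normal_inf_normal _ _
  have hKF : Kp p G0 N ≤ F := le_sup_right
  have hRQ : QpS p G0 N R := by
    refine ⟨iR, ?_, inf_le_left, ?_⟩
    · refine le_inf hK.le' fun a ha => (hmem a).2 fun x _ => ?_
      exact F.mul_mem (hKF (iK.conj_mem a ha x)) (F.inv_mem (hKF ha))
    · refine pgrp hp iK (Kp_fin hG0 hN) fun a ha => ?_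
      obtain ⟨m, hm⟩ := frat hp iQ iK hQ.le hQ.pow a ((hmem a).1 ha.2)
      have h1 := hall_higman hp hG0 hN (a ^ (p ^ m)) (G0.pow_mem ha.1 _) hm
      obtain ⟨k, hk⟩ := hQ.pow
      have h2 := pow_rel (K := Kp p G0 N) iK h1
      rw [hk, ← pow_mul, ← pow_add] at h2
      exact ⟨m + k, h2⟩
  exact le_Qp hRQ ⟨hg, (hmem g).2 h⟩

theorem FrK_EA (hp : p.Prime) (hG0 : G0.Normal) (hN : SN G0 N) :
    EA p (FrK p (Kp p G0 N) (Qp p G0 N)) (Qp p G0 N) ∧
      (FrK p (Kp p G0 N) (Qp p G0 N)).Normal ∧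
      (FrK p (Kp p G0 N) (Qp p G0 N)).FiniteIndex := by
  have hK := Kp_spec (p := p) hG0 hN
  have hQ := Qp_spec hp hG0 hN
  have iF := Kp_fin (p := p) hG0 hN
  refine ⟨⟨FrK_le hQ.le, fun x hx y hy => ?_, fun x hx => ?_⟩, FrK_normal hK.normal hQ.normal,
    Subgroup.finiteIndex_of_le (le_sup_right : Kp p G0 N ≤ FrK p (Kp p G0 N) (Qp p G0 N))⟩
  · exact (le_sup_left : _ ≤ FrK p (Kp p G0 N) (Qp p G0 N))
      (Subgroup.subset_closure (Or.inr ⟨x, hx, y, hy, rfl⟩))
  · exact (le_sup_left : _ ≤ FrK p (Kp p G0 N) (Qp p G0 N))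
      (Subgroup.subset_closure (Or.inl ⟨x, hx, rfl⟩))

theorem relIndex_Qp_le (hp : p.Prime) (hG0 : G0.Normal) {e : ℕ} (hE : EBS e G0) (hN : SN G0 N) :
    (Qp p G0 N).relIndex G0 ≤ (p ^ e) ^ (p ^ e) := by
  have hK := Kp_spec (p := p) hG0 hN
  have hQ := Qp_spec hp hG0 hN
  have iQ := hQ.normal
  obtain ⟨hEA, iF, iFf⟩ := FrK_EA (p := p) hp hG0 hN
  have hcard := hE p hp _ _ iQ iF iFf hQ.le' hEA
  have htriv := fun g hg h => mem_Qp_of_triv hp hG0 hN g hg h
  set F := FrK p (Kp p G0 N) (Qp p G0 N) with hF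
  set Y : Subgroup (G ⧸ F) := (Qp p G0 N).map (QuotientGroup.mk' F) with hY
  have iY : Y.Normal := iQ.map _ (QuotientGroup.mk'_surjective F)
  have iGF : Finite (G ⧸ F) := inferInstance
  have hYc : Nat.card Y = F.relIndex (Qp p G0 N) := by
    have h1 := Subgroup.index_ker ((QuotientGroup.mk' F).comp (Qp p G0 N).subtype)
    have h2 : ((QuotientGroup.mk' F).comp (Qp p G0 N).subtype).ker = F.subgroupOf (Qp p G0 N) := by
      ext x
      rw [MonoidHom.mem_ker, MonoidHom.comp_apply, Subgroup.mem_subgroupOf]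
      exact QuotientGroup.eq_one_iff _
    have h3 : ((QuotientGroup.mk' F).comp (Qp p G0 N).subtype).range = Y := by
      rw [MonoidHom.range_comp, Subgroup.range_subtype]
    rw [h2, h3] at h1
    exact h1.symm
  let ρ : G0 →* MulAut Y := (MulAut.conjNormal.comp (QuotientGroup.mk' F)).comp G0.subtype
  have hker : ρ.ker ≤ (Qp p G0 N).subgroupOf G0 := by
    intro g hg
    rw [MonoidHom.mem_ker] at hg
    rw [Subgroup.mem_subgroupOf]
    refine htriv g g.2 fun x hx => ?_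
    rw [comm_iff]
    have h1 := congrArg (fun f : MulAut Y => ((f ⟨QuotientGroup.mk' F x, x, hx, rfl⟩ : Y) : G ⧸ F)) hg
    have h2 : QuotientGroup.mk' F (g : G) * QuotientGroup.mk' F x *
        (QuotientGroup.mk' F (g : G))⁻¹ = QuotientGroup.mk' F x := h1
    rw [mul_inv_eq_iff_eq_mul] at h2
    exact h2.symm
  have iYf : Finite Y := inferInstance
  have iA : Finite (MulAut Y) := DFunLike.finite (MulAut Y)
  have h3 : (Qp p G0 N).relIndex G0 ≤ ρ.ker.index := by
    refine Nat.le_of_dvd ?_ (Subgroup.index_dvd_of_le hker)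
    rw [Subgroup.index_ker]
    exact Nat.card_pos
  refine h3.trans ?_
  rw [Subgroup.index_ker]
  have h4 : Nat.card ρ.range ≤ Nat.card (Y → Y) := by
    refine (Nat.card_le_card_of_injective (fun f : ρ.range => (f : MulAut Y)) 
      Subtype.val_injective).trans ?_
    exact Nat.card_le_card_of_injective (fun (f : MulAut Y) (y : Y) => f y)
      (fun f g hfg => MulEquiv.ext fun y => congrFun hfg y)
  refine h4.trans ?_
  rw [Nat.card_fun, hYc]
  have h5 : 0 < p ^ e := Nat.pow_pos hp.pos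
  exact (Nat.pow_le_pow_left hcard _).trans (Nat.pow_le_pow_right h5 hcard)

theorem exists_Lp (hp : p.Prime) (hG0 : G0.Normal) {e : ℕ} (hE : EBS e G0)
    (hne : ∃ N, SN G0 N) :
    ∃ N, SN G0 N ∧ ∀ N', SN G0 N' → Qp p G0 N ≤ Qp p G0 N' := by
  classical
  set C : ℕ := (p ^ e) ^ (p ^ e) with hC
  have hex : ∃ m : ℕ, ∃ N, SN G0 N ∧ C - (Qp p G0 N).relIndex G0 = m := by
    obtain ⟨N, hN⟩ := hne
    exact ⟨_, N, hN, rfl⟩
  obtain ⟨N, hN, hm⟩ := Nat.find_spec hex
  refine ⟨N, hN, fun N' hN' => ?_⟩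
  have iN := hN.normal
  have iN' := hN'.normal
  have iNf := hN.fin
  have iNf' := hN'.fin
  have hI : SN G0 (N ⊓ N') := by
    refine ⟨Subgroup.normal_inf_normal _ _, inf_le_left.trans hN.le, inferInstance, ?_⟩
    obtain ⟨k, hk⟩ := hN.sol
    obtain ⟨k', hk'⟩ := hN'.sol
    refine ⟨max k k', le_inf ?_ ?_⟩
    · exact (Subgroup.map_mono (derivedSeries_antitone G0 (le_max_left k k'))).trans hk
    · exact (Subgroup.map_mono (derivedSeries_antitone G0 (le_max_right k k'))).trans hk'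
  have h1 := Qp_mono hp hG0 hN hI inf_le_left
  have h2 := Qp_mono hp hG0 hN' hI inf_le_right
  have hQ := Qp_spec hp hG0 hN
  have hmul := Subgroup.relIndex_mul_relIndex _ _ G0 h1 hQ.le'
  have h3 := relIndex_Qp_le hp hG0 hE hI
  have h4 := relIndex_Qp_le hp hG0 hE hN
  have hmin : C - (Qp p G0 N).relIndex G0 ≤ C - (Qp p G0 (N ⊓ N')).relIndex G0 := by
    rw [hm]
    exact Nat.find_min' hex ⟨_, hI, rfl⟩
  have iQ1 := Qp_fin hp hG0 hI
  have h5 : 0 < (Qp p G0 (N ⊓ N')).relIndex G0 := by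
    have : (Qp p G0 (N ⊓ N')).relIndex G0 ≠ 0 := Subgroup.FiniteIndex.index_ne_zero
    omega
  have h6 : (Qp p G0 (N ⊓ N')).relIndex (Qp p G0 N) = 1 := by
    have h7 : (Qp p G0 (N ⊓ N')).relIndex (Qp p G0 N) ≠ 0 := by
      intro h
      rw [h, Nat.zero_mul] at hmul
      omega
    have h8 : ¬ 2 ≤ (Qp p G0 (N ⊓ N')).relIndex (Qp p G0 N) := by
      intro h
      have h9 := Nat.mul_le_mul_right ((Qp p G0 N).relIndex G0) h
      rw [hmul] at h9
      have h10 : 0 < (Qp p G0 N).relIndex G0 := by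
        rcases Nat.eq_zero_or_pos ((Qp p G0 N).relIndex G0) with h0 | h0
        · rw [h0, Nat.mul_zero] at hmul
          omega
        · exact h0
      omega
    omega
  exact (Subgroup.relIndex_eq_one.1 h6).trans h2

end P9700h
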