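import Mathlib
import Pool.Agent.Lib.P9700a.Defs

/-!
# The derived length of a triangularizable group is at most the dimension

`TF (Set.range σ)` is a chain of steps `Stp` from `⊥` to `⊤`. Let `n = finrank V`. Refine/clean the chain: there are `0 = W 0 ≤ W 1 ≤ ... ≤ W n = V` such that `finrank (W i) = i` and every `σ h` acts as a scalar on `W (i+1) / W i` (any subspace between `X` and `Y` of a step gives two steps) -
or, avoiding the refinement: prove by induction on `n` that `TF` gives such a flag of length `≤ n` (drop trivial steps `X = Y`, the strict ones increase the dimension): `∃ m ≤ n, ∃ W : ℕ → Submodule, W 0 = ⊥, W m = ⊤, Stp (W i) (W (i+1))`.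
Put `U j = {h : ∀ i, (σ h - 1) (W (i + j)) ≤ W i}` (with `W i = ⊤` for `i ≥ m`). The commutator subgroup lies in `U 1` (scalars commute: for `h, k` and `w ∈ W (i+1)`: `σ h w ≡ a w`, `σ k w ≡ b w` modulo `W i`). If `derivedSeries H (j) ≤ U j` with `j ≥ 1` then `derivedSeries H (j + 1) ≤ U (j + 1)`:
for `h, k ∈ U j` write `σ h = 1 + x`, `σ k = 1 + y`, `x y`, `y x` map `W (i + 2 j)` into `W i`, `σ (h k) - σ (k h) = x y - y x`, and `σ ⁅h, k⁆ - 1 = (x y - y x) σ (k h)⁻¹`; `2 j ≥ j + 1`. `U m` acts trivially. (`m = 0`: `V` is trivial.)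
-/

set_option autoImplicit false

namespace P9700h

open P9700a

namespace TFdAux

open scoped commutatorElement

section

variable {K V : Type*} [Field K] [AddCommGroup V] [Module K V] [FiniteDimensional K V]

theorem chain {S : Set (Module.End K V)} {Y : Submodule K V}
    (h : Relation.ReflTransGen (Stp S) ⊥ Y) :
    ∃ (W : ℕ → Submodule K V) (m : ℕ), m ≤ Module.finrank K Y ∧ W 0 = ⊥ ∧
      (∀ i, m ≤ i → W i = Y) ∧ ∀ i, Stp S (W i) (W (i + 1)) := by
  induction h with
  | refl =>
    refine ⟨fun _ => ⊥, 0, Nat.zero_le _, rfl, fun _ _ => rfl, fun i => ⟨le_rfl, fun φ _ => ⟨0, ?_⟩⟩⟩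
    intro w hw
    rw [Submodule.mem_bot] at hw
    simp [hw]
  | @tail X Y _ hXY ih =>
    obtain ⟨W, m, hm, h0, hW, hs⟩ := ih
    by_cases hXY' : X = Y
    · subst hXY'
      exact ⟨W, m, hm, h0, hW, hs⟩
    · have hlt : X < Y := lt_of_le_of_ne hXY.1 hXY'
      have hfr : Module.finrank K X < Module.finrank K Y := Submodule.finrank_lt_finrank_of_lt hlt
      refine ⟨fun i => if i ≤ m then W i else Y, m + 1, by omega, by simp [h0], ?_, ?_⟩
      · intro i hi
        have : ¬ i ≤ m := by omega
        simp [this]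
      · intro i
        rcases lt_trichotomy i m with h1 | h1 | h1
        · have h2 : i ≤ m := by omega
          have h3 : i + 1 ≤ m := by omega
          simp only [h2, h3, if_true]
          exact hs i
        · have h2 : i ≤ m := by omega
          have h3 : ¬ i + 1 ≤ m := by omega
          simp only [h2, h3, if_true, if_false]
          rw [hW i (by omega)]
          exact hXY
        · have h2 : ¬ i ≤ m := by omega
          have h3 : ¬ i + 1 ≤ m := by omega
          simp only [h2, h3, if_false]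
          refine ⟨le_rfl, fun φ hφ => ?_⟩
          obtain ⟨c, hc⟩ := hXY.2 φ hφ
          exact ⟨c, fun w hw => hXY.1 (hc w hw)⟩

variable {H : Type*} [Group H] (σ : H →* Module.End K V) (W : ℕ → Submodule K V)

omit [FiniteDimensional K V] in
theorem inv_mem (h0 : W 0 = ⊥) (hs : ∀ i, Stp (Set.range σ) (W i) (W (i + 1))) (h : H) (i : ℕ)
    {w : V} (hw : w ∈ W i) : σ h w ∈ W i := by
  cases i with
  | zero =>
    rw [h0, Submodule.mem_bot] at hw ⊢
    rw [hw, map_zero]
  | succ i =>
    obtain ⟨c, hc⟩ := (hs i).2 (σ h) ⟨h, rfl⟩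
    have h1 := (hs i).1 (hc w hw)
    have h2 : σ h w = (σ h w - c • w) + c • w := by abel
    rw [h2]
    exact (W (i + 1)).add_mem h1 ((W (i + 1)).smul_mem c hw)

/-- the elements which act trivially on `W (i + j) / W i` for all `i` -/
def UU (hinv : ∀ (h : H) (i : ℕ) (w : V), w ∈ W i → σ h w ∈ W i) (j : ℕ) : Subgroup H where
  carrier := {h | ∀ i, ∀ w ∈ W (i + j), σ h w - w ∈ W i}
  one_mem' := by
    intro i w _
    simp
  mul_mem' := by
    intro a b ha hb i w hw
    have h1 : σ (a * b) w - w = σ a (σ b w - w) + (σ a w - w) := by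
      rw [map_mul, Module.End.mul_apply, map_sub]
      abel
    rw [h1]
    exact (W i).add_mem (hinv a i _ (hb i w hw)) (ha i w hw)
  inv_mem' := by
    intro a ha i w hw
    have h2 : σ a⁻¹ (σ a w) = w := by
      rw [← Module.End.mul_apply, ← map_mul, inv_mul_cancel, map_one, Module.End.one_apply]
    have h1 : σ a⁻¹ w - w = - σ a⁻¹ (σ a w - w) := by
      rw [map_sub, h2]
      abel
    rw [h1]
    exact (W i).neg_mem (hinv a⁻¹ i _ (ha i w hw))

omit [FiniteDimensional K V] in
theorem comm_eq (h k : H) (w : V) : σ ⁅h, k⁆ w - w =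
    σ h (σ k (σ (k * h)⁻¹ w)) - σ k (σ h (σ (k * h)⁻¹ w)) := by
  have h1 : σ k (σ h (σ (k * h)⁻¹ w)) = w := by
    rw [← Module.End.mul_apply, ← Module.End.mul_apply, ← map_mul, ← map_mul, mul_inv_cancel,
      map_one, Module.End.one_apply]
  rw [h1, ← Module.End.mul_apply, ← Module.End.mul_apply, ← map_mul, ← map_mul]
  have : h * k * (k * h)⁻¹ = ⁅h, k⁆ := by
    rw [commutatorElement_def, mul_inv_rev]
    simp only [mul_assoc]
  rw [this]

omit [FiniteDimensional K V] in
theorem series_le (hs : ∀ i, Stp (Set.range σ) (W i) (W (i + 1)))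
    (hinv : ∀ (h : H) (i : ℕ) (w : V), w ∈ W i → σ h w ∈ W i) (j : ℕ) :
    derivedSeries H (j + 1) ≤ UU σ W hinv (j + 1) := by
  have hmono : Monotone W := monotone_nat_of_le_succ fun i => (hs i).1
  induction j with
  | zero =>
    rw [derivedSeries_succ, Subgroup.commutator_le]
    intro h _ k _ i w hw
    rw [comm_eq]
    have hw' : σ (k * h)⁻¹ w ∈ W (i + (0 + 1)) := hinv _ _ _ hw
    set w' := σ (k * h)⁻¹ w with hw'def
    obtain ⟨a, ha⟩ := (hs i).2 (σ h) ⟨h, rfl⟩
    obtain ⟨b, hb⟩ := (hs i).2 (σ k) ⟨k, rfl⟩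
    have hx := hb w' hw'
    have hy := ha w' hw'
    set x := σ k w' - b • w' with hxd
    set y := σ h w' - a • w' with hyd
    have e1 : σ k w' = b • w' + x := by rw [hxd]; abel
    have e2 : σ h w' = a • w' + y := by rw [hyd]; abel
    have e3 : σ h (σ k w') - σ k (σ h w') = b • y + σ h x - (a • x + σ k y) := by
      rw [e1, e2]
      simp only [map_add, map_smul]
      rw [e1, e2]
      simp only [smul_add, smul_smul, mul_comm a b]
      abel
    rw [e3]
    exact (W i).sub_mem ((W i).add_mem ((W i).smul_mem b hy) (hinv h i _ hx))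
      ((W i).add_mem ((W i).smul_mem a hx) (hinv k i _ hy))
  | succ j ih =>
    rw [derivedSeries_succ, Subgroup.commutator_le]
    intro h hh k hk i w hw
    have hh' := ih hh
    have hk' := ih hk
    rw [comm_eq]
    have hw' : σ (k * h)⁻¹ w ∈ W (i + (j + 1 + 1)) := hinv _ _ _ hw
    set w' := σ (k * h)⁻¹ w with hw'def
    have e : ∀ (a b : H), σ a (σ b w') = σ a (σ b w' - w') - (σ b w' - w') + (σ a w' - w') +
        (σ b w' - w') + w' := by
      intro a b
      rw [map_sub]
      abel
    have hw'' : w' ∈ W ((i + 1) + (j + 1)) := by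
      have : (i + 1) + (j + 1) = i + (j + 1 + 1) := by omega
      rw [this]
      exact hw'
    have hx : σ h w' - w' ∈ W (i + 1) := hh' (i + 1) w' hw''
    have hy : σ k w' - w' ∈ W (i + 1) := hk' (i + 1) w' hw''
    have hle : W (i + 1) ≤ W (i + (j + 1)) := hmono (by omega)
    have hxy := hh' i _ (hle hy)
    have hyx := hk' i _ (hle hx)
    have e3 : σ h (σ k w') - σ k (σ h w') = (σ h (σ k w' - w') - (σ k w' - w')) -
        (σ k (σ h w' - w') - (σ h w' - w')) := by
      simp only [map_sub]
      abel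
    rw [e3]
    exact (W i).sub_mem hxy hyx

end

end TFdAux

theorem derived_of_TF {K V H : Type*} [Field K] [AddCommGroup V] [Module K V]
    [FiniteDimensional K V] [Group H] (σ : H →* Module.End K V) (hT : TF (Set.range σ)) :
    ∀ h ∈ derivedSeries H (Module.finrank K V), σ h = 1 := by
  intro h hh
  obtain ⟨W, m, hm, h0, hW, hs⟩ := TFdAux.chain hT
  rw [finrank_top] at hm
  have hinv : ∀ (h : H) (i : ℕ) (w : V), w ∈ W i → σ h w ∈ W i :=
    fun h i w hw => TFdAux.inv_mem σ W h0 hs h i hw
  rcases Nat.eq_zero_or_pos (Module.finrank K V) with hn | hn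
  · have : Subsingleton V := Module.finrank_zero_iff.mp hn
    ext v
    exact Subsingleton.elim _ _
  · obtain ⟨j, hj⟩ : ∃ j, Module.finrank K V = j + 1 := ⟨Module.finrank K V - 1, by omega⟩
    rw [hj] at hh
    have h1 := TFdAux.series_le σ W hs hinv j hh
    ext v
    have h2 : v ∈ W (0 + (j + 1)) := by
      rw [hW _ (by omega)]
      exact Submodule.mem_top
    have h3 := h1 0 v h2
    rw [h0, Submodule.mem_bot, sub_eq_zero] at h3
    rw [h3, Module.End.one_apply]

end P9700h
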