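import Mathlib
import Pool.Agent.Lib.P9700a.Rank
import Pool.Agent.Lib.P9700b.MainV
import Pool.Agent.Lib.P9700h.Defs

/-!
# Groups with a subgroup of finite index of derived length at most `c`

All proofs are pullbacks / images of the subgroup `Y`. The derived series of a subgroup `Y0 ≤ Y` maps into the derived series of `Y` (`map_derivedSeries_le_derivedSeries`); for a surjective map use `map_derivedSeries_eq`.
`VSd.of_two`: `Y = Y0.comap f0 ⊓ Y1.comap f1` (finite index, see `VS_of_two` in `P9700b/MainV.lean`), its `c`-th derived subgroup is killed by `f0` and by `f1`.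
`VSd.vs`: `Group.IsSolvable` from `derivedSeries Y c = ⊥`. `VS.exists_VSd`: from solubility.
-/

set_option autoImplicit false

namespace P9700h

open P9700a

private theorem ds_of_injective {Y Z : Type*} [Group Y] [Group Z] (f : Y →* Z)
    (hf : Function.Injective f) (c : ℕ) (h : derivedSeries Z c = ⊥) : derivedSeries Y c = ⊥ := by
  have h1 := map_derivedSeries_le_derivedSeries f c
  rw [h, le_bot_iff] at h1
  exact (Subgroup.map_eq_bot_iff_of_injective _ hf).mp h1

theorem VSd.mono {c c' : ℕ} (h : c ≤ c') {G : Type*} [Group G] (hG : VSd c G) : VSd c' G := by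
  obtain ⟨Y, hY, hd⟩ := hG
  refine ⟨Y, hY, ?_⟩
  rw [← le_bot_iff, ← hd]
  exact derivedSeries_antitone Y h

theorem VSd.vs {c : ℕ} {G : Type*} [Group G] (hG : VSd c G) : VS G := by
  obtain ⟨Y, hY, hd⟩ := hG
  exact ⟨Y, hY, ⟨⟨c, hd⟩⟩⟩

theorem exists_VSd_of_VS {G : Type*} [Group G] (hG : VS G) : ∃ c, VSd c G := by
  obtain ⟨Y, hY, hs⟩ := hG
  obtain ⟨c, hc⟩ := hs.solvable
  exact ⟨c, Y, hY, hc⟩

private theorem finiteIndex_comap' {G H : Type*} [Group G] [Group H] (f : G →* H)
    (Y : Subgroup H) (hY : Y.FiniteIndex) : (Y.comap f).FiniteIndex := ⟨by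
  rw [Subgroup.index_comap]
  exact (inferInstance : (Y.subgroupOf f.range).FiniteIndex).index_ne_zero⟩

theorem VSd.of_injective {c : ℕ} {G H : Type*} [Group G] [Group H] (f : G →* H)
    (hf : Function.Injective f) (h : VSd c H) : VSd c G := by
  obtain ⟨Y, hY, hd⟩ := h
  refine ⟨Y.comap f, finiteIndex_comap' f Y hY, ?_⟩
  refine ds_of_injective (f.subgroupComap Y) ?_ c hd
  intro x y hxy
  have h1 : f x = f y := congrArg Subtype.val hxy
  exact Subtype.ext (hf h1)

theorem VSd.of_surjective {c : ℕ} {G H : Type*} [Group G] [Group H] (f : G →* H)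
    (hf : Function.Surjective f) (h : VSd c G) : VSd c H := by
  obtain ⟨Y, hY, hd⟩ := h
  refine ⟨Y.map f, ⟨?_⟩, ?_⟩
  · intro h0
    have h1 : (Y.map f).index ∣ Y.index := Subgroup.index_map_dvd Y hf
    rw [h0, zero_dvd_iff] at h1
    exact hY.index_ne_zero h1
  · have h1 := map_derivedSeries_eq (f := f.subgroupMap Y) (MonoidHom.subgroupMap_surjective f Y) c
    rw [← h1, hd, Subgroup.map_bot]

theorem VSd.of_two {c : ℕ} {G Q0 Q1 : Type*} [Group G] [Group Q0] [Group Q1] (f0 : G →* Q0)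
    (f1 : G →* Q1) (hU : ∀ g, f0 g = 1 → f1 g = 1 → g = 1) (h0 : VSd c Q0) (h1 : VSd c Q1) :
    VSd c G := by
  obtain ⟨Y0, hY0, hd0⟩ := h0
  obtain ⟨Y1, hY1, hd1⟩ := h1
  have i0 := finiteIndex_comap' f0 Y0 hY0
  have i1 := finiteIndex_comap' f1 Y1 hY1
  refine ⟨Y0.comap f0 ⊓ Y1.comap f1, inferInstance, ?_⟩
  rw [eq_bot_iff]
  intro x hx
  rw [Subgroup.mem_bot]
  let φ0 : (Y0.comap f0 ⊓ Y1.comap f1 : Subgroup G) →* Y0 :=
    (f0.subgroupComap Y0).comp (Subgroup.inclusion inf_le_left)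
  let φ1 : (Y0.comap f0 ⊓ Y1.comap f1 : Subgroup G) →* Y1 :=
    (f1.subgroupComap Y1).comp (Subgroup.inclusion inf_le_right)
  have e0 : φ0 x = 1 := by
    have h2 := map_derivedSeries_le_derivedSeries φ0 c (Subgroup.mem_map_of_mem φ0 hx)
    rwa [hd0, Subgroup.mem_bot] at h2
  have e1 : φ1 x = 1 := by
    have h2 := map_derivedSeries_le_derivedSeries φ1 c (Subgroup.mem_map_of_mem φ1 hx)
    rwa [hd1, Subgroup.mem_bot] at h2
  apply Subtype.ext
  exact hU (x : G) (congrArg Subtype.val e0) (congrArg Subtype.val e1)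

end P9700h
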