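import Mathlib
import Pool.Agent.Lib.P9700a.Defs
import Pool.Agent.Lib.P9700a.Rank
import Pool.Agent.Lib.P9700b.MainV
import Pool.Agent.Lib.P9700b.Malcev
import Pool.Agent.Lib.P9700c.FinC
import Pool.Agent.Lib.P9700r.FinA
import Pool.Agent.Lib.P9700h.Defs
import Pool.Agent.Lib.P9700h.VSdL
import Pool.Agent.Lib.P9700h.TFd

/-!
# A representation with virtually abelian kernel: a bound for the derived length

* `lin_VSd`: `VS (G ⧸ σ.ker)` (as in `P9700r/FinA.lean`, from `main_plat`; or here directly: `VS` of the image is assumed) and Malcev (`exists_TF_of_solvable` in `P9700b/Malcev.lean`) give a subgroup `Y` of finite index in `G` with `TF (σ '' Y)`; `derived_of_TF` for `σ.comp Y.subtype`: the `n`-th derived subgroup of `Y` is in the kernel, `n = finrank V`.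
* `vsd_of_rep`: `fr_vs_of_rep` (`P9700r/FinA.lean`) gives `FR G` and `VS G`. Let `Y` be as in `lin_VSd`, `C = {g : ∀ k ∈ σ.ker, k⁻¹ (g k g⁻¹) ∈ Z}`, of finite index (`P9700r.FinAAux.exists_act`), `U = Y ⊓ C`. The `n`-th derived subgroup of `U` lies in `σ.ker ⊓ C`, whose commutators lie in `Z`, and `Z` is abelian: `derivedSeries U (n + 2) = ⊥`.
-/

set_option autoImplicit false

universe u v w

namespace P9700h

open P9700a P9700r

open scoped commutatorElement

namespace RepDAux

/-- the derived series of a subgroup inside the group -/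
theorem map_succ {G : Type*} [Group G] (U : Subgroup G) (j : ℕ) :
    (derivedSeries U (j + 1)).map U.subtype =
      ⁅(derivedSeries U j).map U.subtype, (derivedSeries U j).map U.subtype⁆ := by
  rw [derivedSeries_succ, Subgroup.map_commutator]

theorem map_mono {G : Type*} [Group G] {U Y : Subgroup G} (h : U ≤ Y) (j : ℕ) :
    (derivedSeries U j).map U.subtype ≤ (derivedSeries Y j).map Y.subtype := by
  induction j with
  | zero =>
    rintro _ ⟨x, -, rfl⟩
    exact ⟨⟨x.1, h x.2⟩, by simp [derivedSeries_zero], rfl⟩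
  | succ j ih =>
    rw [map_succ, map_succ]
    exact Subgroup.commutator_mono ih ih

theorem map_le {G : Type*} [Group G] (U : Subgroup G) (j : ℕ) :
    (derivedSeries U j).map U.subtype ≤ U := by
  rintro _ ⟨x, -, rfl⟩
  exact x.2

end RepDAux

theorem lin_VSd (K : Type w) [Field K] [IsAlgClosed K] [CharZero K] (G : Type u) [Group G]
    (V : Type v) [AddCommGroup V] [Module K V] [FiniteDimensional K V]
    (σ : G →* Module.End K V) (hG : VS G) :
    ∃ Y : Subgroup G, Y.FiniteIndex ∧ (derivedSeries Y (Module.finrank K V)).map Y.subtype ≤ σ.ker := by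
  obtain ⟨Y0, hY0, hs⟩ := hG
  obtain ⟨H1, hH1, hT⟩ := exists_TF_of_solvable (σ.comp Y0.subtype)
  refine ⟨H1.map Y0.subtype, ⟨?_⟩, ?_⟩
  · rw [Subgroup.index_map_subtype]
    exact mul_ne_zero hH1.index_ne_zero hY0.index_ne_zero
  · have hset : Set.range (σ.comp (H1.map Y0.subtype).subtype) =
        (σ.comp Y0.subtype) '' (H1 : Set Y0) := by
      ext φ
      constructor
      · rintro ⟨⟨_, y, hy, rfl⟩, rfl⟩
        exact ⟨y, hy, rfl⟩
      · rintro ⟨y, hy, rfl⟩
        exact ⟨⟨(y : G), y, hy, rfl⟩, rfl⟩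
    have h := derived_of_TF (σ.comp (H1.map Y0.subtype).subtype) (by rw [hset]; exact hT)
    rintro _ ⟨x, hx, rfl⟩
    exact h x hx

theorem vsd_of_rep (K : Type w) [Field K] [IsAlgClosed K] [CharZero K] (G : Type u) [Group G]
    (V : Type v) [AddCommGroup V] [Module K V] [FiniteDimensional K V]
    (σ : G →* Module.End K V) (A B : Subgroup G) (hA : FR A) (hB : FR B)
    (hAB : ∀ g : G, ∃ a ∈ A, ∃ b ∈ B, g = a * b) (Z : Subgroup G) (hZ : Z.Normal)
    (hZc : ∀ z ∈ Z, ∀ z' ∈ Z, z * z' = z' * z) (hZk : Z ≤ σ.ker) (hZf : Z.relIndex σ.ker ≠ 0)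
    (hZr : FR Z) : FR G ∧ VSd (Module.finrank K V + 2) G := by
  obtain ⟨hFR, hVS⟩ := fr_vs_of_rep K G V σ A B hA hB hAB Z hZ hZc hZk hZf hZr
  refine ⟨hFR, ?_⟩
  obtain ⟨Y, hY, hYk⟩ := lin_VSd K G V σ hVS
  obtain ⟨Q, hQg, hQf, f, hf⟩ := FinAAux.exists_act σ.ker Z hZf
  have hC : f.ker.FiniteIndex := inferInstance
  refine ⟨Y ⊓ f.ker, inferInstance, ?_⟩
  have h0 : (derivedSeries (Y ⊓ f.ker : Subgroup G) (Module.finrank K V)).map
      (Y ⊓ f.ker).subtype ≤ σ.ker ⊓ f.ker :=
    le_inf ((RepDAux.map_mono inf_le_left _).trans hYk) ((RepDAux.map_le _ _).trans inf_le_right)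
  have h1 : (derivedSeries (Y ⊓ f.ker : Subgroup G) (Module.finrank K V + 1)).map
      (Y ⊓ f.ker).subtype ≤ Z := by
    rw [RepDAux.map_succ, Subgroup.commutator_le]
    intro x hx y hy
    have hx' := (h0 hx).2
    have hy' := (h0 hy).1
    have h2 := hf x hx' y hy'
    have h3 := hZ.conj_mem _ h2 y
    have h4 : y * (y⁻¹ * (x * y * x⁻¹)) * y⁻¹ = ⁅x, y⁆ := by
      rw [commutatorElement_def]
      group
    rw [h4] at h3
    exact h3
  have h2 : (derivedSeries (Y ⊓ f.ker : Subgroup G) (Module.finrank K V + 2)).map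
      (Y ⊓ f.ker).subtype ≤ ⊥ := by
    rw [RepDAux.map_succ, Subgroup.commutator_le]
    intro x hx y hy
    rw [Subgroup.mem_bot, commutatorElement_eq_one_iff_mul_comm]
    exact hZc x (h1 hx) y (h1 hy)
  exact (Subgroup.map_eq_bot_iff_of_injective _ (Subgroup.subtype_injective _)).mp (le_bot_iff.mp h2)

end P9700h
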