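import Mathlib
import Pool.Agent.Lib.P9700a.Defs
import Pool.Agent.Lib.P9700r.Defs
import Pool.Agent.Lib.P9700r.Fin
import Pool.Agent.Lib.P9700h.Defs
import Pool.Agent.Lib.P9700h.RepD

/-!
# Virtually residually-`p` groups: bounded derived length

Copy the proof of `P9700r.main_resid` (`P9700r/Fin.lean`), but with the given `c` (`hc : EB p G0.normalCore c`) in place of `elem_bound`, and with `vsd_of_rep` in place of `fr_vs_of_rep` at the end; `finrank (Fin d → K) = d`. It remains to see `d ≤ c`: `hu.card m le_rfl : (P (m + 1)).relIndex (P m) = p ^ d`, and `hc` applied to `N = M1 = P (m + 1)`, `M = P m`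
(`hNP`, `hP.normal`, `hP.anti`, commutators: `hP.comm m` gives elements of `P (m + 2) ≤ P (m + 1)`, `y ∈ P m ≤ P 0`; powers: `hP.pow`) gives `p ^ d ≤ p ^ c`. Then `VSd.mono`.
-/

set_option autoImplicit false

namespace P9700h

open P9700a P9700r

theorem main_residc {G : Type*} [Group G] {p : ℕ} (hp : p.Prime) (G0 : Subgroup G)
    (hG0 : G0.FiniteIndex)
    (hres : ∀ g : G0, g ≠ 1 → ∃ N : Subgroup G0, N.Normal ∧ (∃ k : ℕ, N.index = p ^ k) ∧ g ∉ N)
    (A B : Subgroup G) (hA : FR A) (hB : FR B) (hAB : ∀ g : G, ∃ a ∈ A, ∃ b ∈ B, g = a * b)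
    (c : ℕ) (hc : EB p G0.normalCore c) : FR G ∧ VSd (c + 2) G := by
  haveI : Fact p.Prime := ⟨hp⟩
  haveI := hG0
  obtain ⟨P, hP, hNP, hgen⟩ := exists_filt hp (G0 := G0.normalCore) inferInstance hc
  have hinf : ∀ g : G, (∀ k, g ∈ P k) → g = 1 := by
    intro g hg
    by_contra hne
    obtain ⟨N, hN, hgN⟩ := exists_NP hp G0 hG0 hres g hne
    obtain ⟨k, hk⟩ := exists_le_of_gen hp (G0 := G0.normalCore) inferInstance P (hNP 0).2.1
      hP.normal hP.anti hgen hN
    exact hgN (hk (hg k))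
  obtain ⟨m, d, hu⟩ := hP.exists_unif hp
  have hdc : d ≤ c := by
    have hm0 : P m ≤ P 0 := (antitone_nat_of_succ_le hP.anti) (Nat.zero_le m)
    have hb := hc (P (m + 1)) (P m) (P (m + 1)) (hNP (m + 1)) (hP.normal m) (hP.normal (m + 1))
      le_rfl (hP.anti m) (hNP m).2.1
      (fun x hx y hy => hP.anti (m + 1) (hP.comm m x hx y (hm0 hy))) (hP.pow m)
    rw [hu.card m le_rfl] at hb
    exact (Nat.pow_le_pow_iff_right hp.one_lt).1 hb
  obtain ⟨ρ, b, h1, h2, h3, h4⟩ := exists_rep hP hu hinf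
  obtain ⟨σ, hσ1, hσ2⟩ := base_change p d ρ
  have hker : ∀ g, g ∈ σ.ker ↔ ∀ x ∈ P m, g * x * g⁻¹ = x := by
    intro g
    rw [MonoidHom.mem_ker, hσ2, h1]
  have hPn : (P m).Normal := hP.normal m
  have hZn : (σ.ker ⊓ P m).Normal := inferInstance
  have hb1 : b 1 = 0 := by
    have e := h3 1 (P m).one_mem 1 (P m).one_mem rfl
    rw [mul_one] at e
    exact left_eq_add.mp e
  have hfi : (P m).FiniteIndex := by
    refine ⟨?_⟩
    have e1 := Subgroup.relIndex_mul_index (hNP m).2.1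
    obtain ⟨k, hk⟩ := (hNP m).2.2
    rw [hk] at e1
    rw [← e1]
    exact mul_ne_zero (pow_ne_zero _ hp.ne_zero) Subgroup.FiniteIndex.index_ne_zero
  have hZr : FR (σ.ker ⊓ P m : Subgroup G) := by
    refine fr_of_embed (AlgebraicClosure ℚ_[p]) G (Fin d → AlgebraicClosure ℚ_[p]) σ A B hA hB hAB
      (σ.ker ⊓ P m) hZn (fun g => fun j => emb p (b g j)) ?_ ?_ ?_
    · rintro z ⟨hz1, hz2⟩ z' ⟨hz1', hz2'⟩
      have hc' : z * z' = z' * z := by
        have := (hker z).1 hz1 z' hz2'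
        calc z * z' = (z * z' * z⁻¹) * z := by group
          _ = z' * z := by rw [this]
      ext j
      simp only [h3 z hz2 z' hz2' hc', Pi.add_apply, map_add]
    · rintro z ⟨hz1, hz2⟩ hz
      apply h2 z hz2 1 (P m).one_mem
      rw [hb1]
      ext j
      have e := congrFun hz j
      exact (map_eq_zero_iff (emb p) (emb_injective p)).1 e
    · rintro g z ⟨hz1, hz2⟩
      simp only [h4 g z hz2, hσ1]
  have key : FR G ∧ VSd (Module.finrank (AlgebraicClosure ℚ_[p])
      (Fin d → AlgebraicClosure ℚ_[p]) + 2) G := by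
    refine vsd_of_rep (AlgebraicClosure ℚ_[p]) G (Fin d → AlgebraicClosure ℚ_[p]) σ A B hA hB hAB
      (σ.ker ⊓ P m) hZn ?_ inf_le_left ?_ hZr
    · rintro z ⟨hz1, hz2⟩ z' ⟨hz1', hz2'⟩
      have := (hker z).1 hz1 z' hz2'
      calc z * z' = (z * z' * z⁻¹) * z := by group
        _ = z' * z := by rw [this]
    · rw [Subgroup.inf_relIndex_left]
      exact (inferInstance : ((P m).subgroupOf σ.ker).FiniteIndex).index_ne_zero
  rw [Module.finrank_fin_fun] at key
  exact ⟨key.1, VSd.mono (by omega) key.2⟩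

end P9700h
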