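import Mathlib
import Pool.Agent.Lib.P9700a.Rank
import Pool.Agent.Lib.P9700h.Defs
import Pool.Agent.Lib.P9700h.SNa
import Pool.Agent.Lib.P9700h.KQa
import Pool.Agent.Lib.P9700h.RQ
import Pool.Agent.Lib.P9700h.KIa
import Pool.Agent.Lib.P9700h.ResC

/-!
# The quotient by `KI p G0` is virtually residually-`p`

`π : G → G ⧸ KI p G0`. Take `N` from `exists_Lp`; `L0 = (Qp p G0 N).map π` has finite index. Residual property: let `g ∈ L0`, `g ≠ 1`, `g = π x` with `x ∈ Qp p G0 N`, `x ∉ KI p G0`: there is `N'` in the family with `x ∉ Kp p G0 N'` (`mem_KI`). The subgroup `((Kp p G0 N').map π).subgroupOf L0` is normal, does not contain `g` (`KI ≤ Kp p G0 N'`, so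
`π x ∈ (Kp N').map π` iff `x ∈ Kp N'`), and its index `((Kp N').map π).relIndex (Qp N).map π = (Kp N').relIndex (Qp N)` (again because `KI ≤ Kp N'`) divides `(Kp N').relIndex (Qp N') = p ^ k` (`Qp N ≤ Qp N'`): a power of `p`. `P9700r.EB p L0.normalCore e`: pull back `M`, `M1`, `N` to `G` by `π`: they are normal; `N` has `p`-power index in `L0.normalCore`, which has
finite index, so `N`, hence `M1`, has finite index; `M.comap π ≤ (L0).comap π = Qp p G0 N ≤ G0` (`KI ≤ Kp N ≤ Qp N`); `EA`; relative indices are preserved by `comap` of the surjective map `π`. `A.map π`, `B.map π` have finite rank. Apply `main_residc`.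
-/

set_option autoImplicit false

namespace P9700h

open P9700a

namespace PartBAux

open Subgroup

variable {G : Type*} [Group G]

theorem index_map_mk {K Q : Subgroup G} [K.Normal] (h : K ≤ Q) :
    (Q.map (QuotientGroup.mk' K)).index = Q.index := by
  rw [← Subgroup.index_comap_of_surjective _ (QuotientGroup.mk'_surjective K),
    Subgroup.comap_map_eq_self (by rw [QuotientGroup.ker_mk']; exact h)]

theorem relIndex_map_mk {K M : Subgroup G} [K.Normal] (h : K ≤ M) (Q : Subgroup G) :
    (M.map (QuotientGroup.mk' K)).relIndex (Q.map (QuotientGroup.mk' K)) = M.relIndex Q := by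
  rw [← Subgroup.relIndex_comap,
    Subgroup.comap_map_eq_self (by rw [QuotientGroup.ker_mk']; exact h)]

theorem relIndex_comap_mk {K : Subgroup G} [K.Normal] (M1 M : Subgroup (G ⧸ K)) :
    (M1.comap (QuotientGroup.mk' K)).relIndex (M.comap (QuotientGroup.mk' K)) =
      M1.relIndex M := by
  rw [Subgroup.relIndex_comap,
    Subgroup.map_comap_eq_self_of_surjective (QuotientGroup.mk'_surjective K)]

theorem fr_map {H : Type*} [Group H] (f : G →* H) {A : Subgroup G} (hA : FR A) :
    FR (A.map f) :=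
  FR.of_surjective (f.subgroupMap A) (f.subgroupMap_surjective A) hA

end PartBAux

open PartBAux in
theorem partB {G : Type*} [Group G] (G0 : Subgroup G) (hG0 : G0.Normal) (hne : ∃ N, SN G0 N)
    (A B : Subgroup G) (hA : FR A) (hB : FR B) (hAB : ∀ g : G, ∃ a ∈ A, ∃ b ∈ B, g = a * b)
    {e : ℕ} (hE : EBS e G0) {p : ℕ} (hp : p.Prime) [(KI p G0).Normal] :
    FR (G ⧸ KI p G0) ∧ VSd (e + 2) (G ⧸ KI p G0) := by
  have hG0' := hG0
  obtain ⟨N, hN, hNmin⟩ := exists_Lp hp hG0 hE hne
  have hQ := Qp_spec hp hG0 hN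
  have hQf := Qp_fin hp hG0 hN
  have hKIQ : KI p G0 ≤ Qp p G0 N := (KI_le_Kp hN).trans hQ.le
  let π : G →* G ⧸ KI p G0 := QuotientGroup.mk' (KI p G0)
  have hπ : Function.Surjective π := QuotientGroup.mk'_surjective _
  let L0 : Subgroup (G ⧸ KI p G0) := (Qp p G0 N).map π
  have hL0i : L0.index ≠ 0 := by
    have := index_map_mk hKIQ
    show ((Qp p G0 N).map (QuotientGroup.mk' (KI p G0))).index ≠ 0
    rw [this]
    exact hQf.index_ne_zero
  have hL0 : L0.FiniteIndex := ⟨hL0i⟩
  have hL0c : L0.comap π = Qp p G0 N :=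
    Subgroup.comap_map_eq_self (by rw [QuotientGroup.ker_mk']; exact hKIQ)
  refine main_residc hp L0 hL0 ?_ (A.map π) (B.map π) (fr_map π hA) (fr_map π hB) ?_ e ?_
  · rintro ⟨y, hy⟩ hg
    obtain ⟨x, hx, rfl⟩ := Subgroup.mem_map.1 hy
    have hxK : x ∉ KI p G0 := by
      intro hx'
      apply hg
      apply Subtype.ext
      exact (QuotientGroup.eq_one_iff x).2 hx'
    rw [mem_KI] at hxK
    push Not at hxK
    obtain ⟨N', hN', hxN'⟩ := hxK
    have hK' := Kp_spec (p := p) hG0 hN'
    have hQ' := Qp_spec hp hG0 hN'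
    have hKI' : KI p G0 ≤ Kp p G0 N' := KI_le_Kp hN'
    have i1 := hK'.normal
    have i2 : ((Kp p G0 N').map π).Normal := i1.map π hπ
    refine ⟨((Kp p G0 N').map π).subgroupOf L0, inferInstance, ?_, ?_⟩
    · have e1 : (((Kp p G0 N').map π).subgroupOf L0).index =
          (Kp p G0 N').relIndex (Qp p G0 N) := relIndex_map_mk hKI' (Qp p G0 N)
      rw [e1]
      obtain ⟨k, hk⟩ := hQ'.pow
      have hle : Qp p G0 N ⊔ Kp p G0 N' ≤ Qp p G0 N' := sup_le (hNmin N' hN') hQ'.le
      have h1 := Subgroup.relIndex_mul_relIndex (Kp p G0 N') (Qp p G0 N ⊔ Kp p G0 N')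
        (Qp p G0 N') le_sup_right hle
      rw [Subgroup.relIndex_sup_right, hk] at h1
      obtain ⟨j, -, hj⟩ := (Nat.dvd_prime_pow hp).1 (Dvd.intro _ h1)
      exact ⟨j, hj⟩
    · intro hmem
      rw [Subgroup.mem_subgroupOf] at hmem
      have h2 : x ∈ ((Kp p G0 N').map π).comap π := hmem
      rw [Subgroup.comap_map_eq_self (by rw [QuotientGroup.ker_mk']; exact hKI')] at h2
      exact hxN' h2
  · intro g
    obtain ⟨x, rfl⟩ := hπ g
    obtain ⟨a, ha, b, hb, rfl⟩ := hAB x
    exact ⟨π a, Subgroup.mem_map_of_mem π ha, π b, Subgroup.mem_map_of_mem π hb, map_mul π a b⟩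
  · intro N2 M M1 hNP hM hM1 hN2 hM1M hMle hcomm hpow
    obtain ⟨-, hN2le, k, hk⟩ := hNP
    have hnc : L0.normalCore.FiniteIndex := inferInstance
    have hN2i : N2.index ≠ 0 := by
      rw [← Subgroup.relIndex_mul_index hN2le, hk]
      exact Nat.mul_ne_zero (pow_ne_zero _ hp.ne_zero) hnc.index_ne_zero
    have hN2f : N2.FiniteIndex := ⟨hN2i⟩
    have hM1f : M1.FiniteIndex := Subgroup.finiteIndex_of_le hN2
    have hMQ : M.comap π ≤ G0 := by
      refine le_trans (Subgroup.comap_mono (hMle.trans L0.normalCore_le)) ?_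
      rw [hL0c]
      exact hQ.le'
    have hc1 : (M.comap π).Normal := hM.comap π
    have hc2 : (M1.comap π).Normal := hM1.comap π
    have hc3 : (M1.comap π).FiniteIndex := by
      refine ⟨?_⟩
      rw [Subgroup.index_comap_of_surjective _ hπ]
      exact hM1f.index_ne_zero
    have hEA : EA p (M1.comap π) (M.comap π) := by
      refine ⟨Subgroup.comap_mono hM1M, ?_, ?_⟩
      · intro x hx y hy
        rw [Subgroup.mem_comap] at hx hy ⊢
        simp only [map_mul, map_inv]
        exact hcomm _ hx _ hy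
      · intro x hx
        rw [Subgroup.mem_comap] at hx ⊢
        rw [map_pow]
        exact hpow _ hx
    have h3 := hE p hp (M.comap π) (M1.comap π) hc1 hc2 hc3 hMQ hEA
    rwa [relIndex_comap_mk M1 M] at h3

end P9700h
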